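import Mathlib

/-!
# Bregman distances of the norm and of a support function with curvature bounded below

Tools for the local lemma of the sharp inequality (MP_b21509_co).
-/

open Real Set

namespace Helper48.SH

/-- the Bregman distance of the norm at `p` in the direction `d` -/
noncomputable def brN (p d : ℂ) : ℝ := ‖p + d‖ - ‖p‖ - (d * (starRingEnd ℂ) p).re / ‖p‖

/-- exact formula -/
theorem brN_mul (p d : ℂ) (hp : p ≠ 0) :
    brN p d * (‖p + d‖ + ‖p‖ + (d * (starRingEnd ℂ) p).re / ‖p‖)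
      = ((d * (starRingEnd ℂ) p).im / ‖p‖) ^ 2 := by
  have hn : 0 < ‖p‖ := norm_pos_iff.mpr hp
  have h1 : ‖p + d‖ ^ 2 = ‖p‖ ^ 2 + 2 * (d * (starRingEnd ℂ) p).re + ‖d‖ ^ 2 := by
    rw [← Complex.normSq_eq_norm_sq, ← Complex.normSq_eq_norm_sq, ← Complex.normSq_eq_norm_sq]
    simp [Complex.normSq_apply]
    ring
  have h2 : (d * (starRingEnd ℂ) p).re ^ 2 + (d * (starRingEnd ℂ) p).im ^ 2 = ‖d‖ ^ 2 * ‖p‖ ^ 2 := by
    rw [← Complex.normSq_eq_norm_sq, ← Complex.normSq_eq_norm_sq]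
    simp [Complex.normSq_apply]
    ring
  unfold brN
  have e1 : (‖p + d‖ - ‖p‖ - (d * (starRingEnd ℂ) p).re / ‖p‖)
      * (‖p + d‖ + ‖p‖ + (d * (starRingEnd ℂ) p).re / ‖p‖)
      = ‖p + d‖ ^ 2 - (‖p‖ + (d * (starRingEnd ℂ) p).re / ‖p‖) ^ 2 := by ring
  rw [e1, h1]
  have e2 : (‖p‖ + (d * (starRingEnd ℂ) p).re / ‖p‖) ^ 2
      = ‖p‖ ^ 2 + 2 * (d * (starRingEnd ℂ) p).re + ((d * (starRingEnd ℂ) p).re / ‖p‖) ^ 2 := by
    field_simp
    ring
  rw [e2]
  have e3 : ((d * (starRingEnd ℂ) p).re / ‖p‖) ^ 2 + ((d * (starRingEnd ℂ) p).im / ‖p‖) ^ 2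
      = ‖d‖ ^ 2 := by
    rw [div_pow, div_pow, ← add_div, h2]
    field_simp
  linarith

theorem re_div_le (p d : ℂ) (hp : p ≠ 0) : |(d * (starRingEnd ℂ) p).re / ‖p‖| ≤ ‖d‖ := by
  have hn : 0 < ‖p‖ := norm_pos_iff.mpr hp
  rw [abs_div, abs_of_pos hn, div_le_iff₀ hn]
  calc |(d * (starRingEnd ℂ) p).re| ≤ ‖d * (starRingEnd ℂ) p‖ := Complex.abs_re_le_norm _
    _ = ‖d‖ * ‖p‖ := by rw [norm_mul, RCLike.norm_conj]

theorem brN_nonneg (p d : ℂ) (hp : p ≠ 0) : 0 ≤ brN p d := by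
  unfold brN
  have hn : 0 < ‖p‖ := norm_pos_iff.mpr hp
  have h1 := Complex.re_le_norm ((p + d) * (starRingEnd ℂ) p)
  rw [norm_mul, RCLike.norm_conj] at h1
  have h2 : ((p + d) * (starRingEnd ℂ) p).re = ‖p‖ ^ 2 + (d * (starRingEnd ℂ) p).re := by
    rw [← Complex.normSq_eq_norm_sq]
    simp [Complex.normSq_apply]
    ring
  rw [h2] at h1
  have h3 : (d * (starRingEnd ℂ) p).re / ‖p‖ ≤ ‖p + d‖ - ‖p‖ := by
    rw [div_le_iff₀ hn]
    nlinarith
  linarith

/-- lower bound with a bound for the denominator -/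
theorem brN_ge (p d : ℂ) (hp : p ≠ 0) (M : ℝ) (hM : 0 < M)
    (h : ‖p + d‖ + ‖p‖ + (d * (starRingEnd ℂ) p).re / ‖p‖ ≤ M) :
    ((d * (starRingEnd ℂ) p).im / ‖p‖) ^ 2 / M ≤ brN p d := by
  rw [div_le_iff₀ hM, ← brN_mul p d hp]
  exact mul_le_mul_of_nonneg_left h (brN_nonneg p d hp)

theorem brN_ge' (p d : ℂ) (hp : p ≠ 0) :
    ((d * (starRingEnd ℂ) p).im / ‖p‖) ^ 2 / (2 * (‖p‖ + ‖d‖)) ≤ brN p d := by
  have hn : 0 < ‖p‖ := norm_pos_iff.mpr hp
  apply brN_ge p d hp
  · positivity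
  · have h1 := norm_add_le p d
    have h2 := (abs_le.mp (re_div_le p d hp)).2
    linarith

/-- a support function (in the angle) with `h'' + h ≥ m`: comparison with the disc of radius `m` -/
theorem sup_ge (h h1 h2 : ℝ → ℝ) (m a D : ℝ) (d1 : ∀ x, HasDerivAt h (h1 x) x)
    (d2 : ∀ x, HasDerivAt h1 (h2 x) x) (hm : ∀ x, m ≤ h2 x + h x) (hD : |D| ≤ π) :
    m + (h a - m) * cos D + h1 a * sin D ≤ h (a + D) := by
  -- it is enough to treat `D ≥ 0`
  have key : ∀ (g g1 g2 : ℝ → ℝ) (D : ℝ), (∀ x, HasDerivAt g (g1 x) x) →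
      (∀ x, HasDerivAt g1 (g2 x) x) → (∀ x, m ≤ g2 x + g x) → 0 ≤ D → D ≤ π →
      m + (g 0 - m) * cos D + g1 0 * sin D ≤ g D := by
    intro g g1 g2 D hg hg1 hgm h0 hπ
    set F : ℝ → ℝ := fun s => g1 s * sin (D - s) + (g s - m) * cos (D - s) with hF
    have hFd : ∀ s, HasDerivAt F ((g2 s + g s - m) * sin (D - s)) s := by
      intro s
      have e1 : HasDerivAt (fun s => D - s) (-1) s := (hasDerivAt_id s).const_sub D
      have e2 : HasDerivAt (fun s => sin (D - s)) (cos (D - s) * (-1)) s := e1.sin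
      have e3 : HasDerivAt (fun s => cos (D - s)) (-sin (D - s) * (-1)) s := e1.cos
      have e4 := ((hg1 s).mul e2).add (((hg s).sub_const m).mul e3)
      refine e4.congr_deriv ?_
      ring
    have hmono : MonotoneOn F (Icc 0 D) := by
      apply monotoneOn_of_deriv_nonneg (convex_Icc 0 D)
      · exact fun s _ => (hFd s).continuousAt.continuousWithinAt
      · exact fun s _ => (hFd s).differentiableAt.differentiableWithinAt
      · intro s hs
        rw [interior_Icc] at hs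
        rw [(hFd s).deriv]
        apply mul_nonneg
        · linarith [hgm s]
        · apply sin_nonneg_of_nonneg_of_le_pi
          · linarith [hs.2]
          · linarith [hs.1]
    have h3 := hmono (left_mem_Icc.mpr h0) (right_mem_Icc.mpr h0) h0
    simp only [hF, sub_zero, sub_self, sin_zero, cos_zero] at h3
    linarith
  rcases le_total 0 D with hD0 | hD0
  · have hDπ : D ≤ π := (abs_le.mp hD).2
    have h4 := key (fun x => h (a + x)) (fun x => h1 (a + x)) (fun x => h2 (a + x)) D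
      (fun x => (d1 (a + x)).comp_const_add a x)
      (fun x => (d2 (a + x)).comp_const_add a x)
      (fun x => hm (a + x)) hD0 hDπ
    simpa using h4
  · have hDπ : -D ≤ π := by
      have := (abs_le.mp hD).1
      linarith
    have h4 := key (fun x => h (a - x)) (fun x => -h1 (a - x)) (fun x => h2 (a - x)) (-D)
      (fun x => (d1 (a - x)).comp_const_sub a x)
      (fun x => by
        have := ((d2 (a - x)).comp_const_sub a x).neg
        rwa [neg_neg] at this)
      (fun x => hm (a - x)) (by linarith) hDπ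
    simpa [Real.cos_neg, Real.sin_neg, sub_neg_eq_add] using h4

end Helper48.SH
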