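import Pool.Agent.Helper88.SH.P4

/-!
# SHARP (MP_b21509_co), link (4): test (B), the cells near the diagonal `z = z₀`

On a cell of `(x0, y0, a, d)` (`z = z₀ + (a, d)`) which is close to the diagonal the four Bregman terms are bounded below by the
quadratic form `∑ 2 κ τc τ - μ τc² W` in `(b, g, a, d)`, which is separately concave in `x0` and `y0`; so it is enough that the
form minus `(3/2) f (a² + d²)` is positive semidefinite at the four corners of the `z₀` box.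
-/

set_option autoImplicit false

namespace Pool.Agent.Helper48.TB

open Pool.Agent.Helper88.P4

/-! ### integer part -/

/-- upper bound of `c t` on `l ≤ t ≤ u` -/
def mx (c l u : ℤ) : ℤ := if 0 ≤ c then c * u else c * l

theorem mx_ge {c l u : ℤ} {t : ℝ} (h1 : (l : ℝ) ≤ t) (h2 : t ≤ (u : ℝ)) : (c : ℝ) * t ≤ (mx c l u : ℤ) := by
  unfold mx
  split_ifs with h
  · have : (0 : ℝ) ≤ c := by exact_mod_cast h
    push_cast
    exact mul_le_mul_of_nonneg_left h2 this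
  · have : (c : ℝ) ≤ 0 := by
      have : c ≤ 0 := by omega
      exact_mod_cast this
    push_cast
    exact mul_le_mul_of_nonpos_left h1 this

/-- symmetric 4 x 4 matrices -/
structure S4 where
  a00 : ℤ
  a01 : ℤ
  a02 : ℤ
  a03 : ℤ
  a11 : ℤ
  a12 : ℤ
  a13 : ℤ
  a22 : ℤ
  a23 : ℤ
  a33 : ℤ

def psd2 (a b c : ℤ) : Bool := decide (0 < a) && decide (b * b ≤ a * c)

def psd3 (a b c d e f : ℤ) : Bool :=
  decide (0 < a) && psd2 (a * d - b * b) (a * e - b * c) (a * f - c * c)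

def psd4 (A : S4) : Bool :=
  decide (0 < A.a00) && psd3 (A.a00 * A.a11 - A.a01 * A.a01) (A.a00 * A.a12 - A.a01 * A.a02)
    (A.a00 * A.a13 - A.a01 * A.a03) (A.a00 * A.a22 - A.a02 * A.a02) (A.a00 * A.a23 - A.a02 * A.a03)
    (A.a00 * A.a33 - A.a03 * A.a03)

theorem psd2_real {a b c x y : ℝ} (h1 : 0 < a) (h2 : b * b ≤ a * c) :
    0 ≤ a * x ^ 2 + 2 * b * x * y + c * y ^ 2 := by
  have h : 0 ≤ a * (a * x ^ 2 + 2 * b * x * y + c * y ^ 2) := by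
    have e : a * (a * x ^ 2 + 2 * b * x * y + c * y ^ 2) = (a * x + b * y) ^ 2 + (a * c - b * b) * y ^ 2 := by
      ring
    rw [e]
    have := mul_nonneg (sub_nonneg.2 h2) (sq_nonneg y)
    positivity
  exact nonneg_of_mul_nonneg_right h h1

theorem psd2_sound {a b c : ℤ} (h : psd2 a b c = true) (x y : ℝ) :
    0 ≤ (a : ℝ) * x ^ 2 + 2 * b * x * y + c * y ^ 2 := by
  simp only [psd2, Bool.and_eq_true, decide_eq_true_eq] at h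
  exact psd2_real (by exact_mod_cast h.1) (by exact_mod_cast h.2)

theorem psd3_sound {a b c d e f : ℤ} (h : psd3 a b c d e f = true) (x y z : ℝ) :
    0 ≤ (a : ℝ) * x ^ 2 + 2 * b * x * y + 2 * c * x * z + d * y ^ 2 + 2 * e * y * z + f * z ^ 2 := by
  simp only [psd3, Bool.and_eq_true, decide_eq_true_eq] at h
  have h1 : (0 : ℝ) < a := by exact_mod_cast h.1
  have h2 := psd2_sound h.2 y z
  push_cast at h2
  have h3 : 0 ≤ (a : ℝ) * ((a : ℝ) * x ^ 2 + 2 * b * x * y + 2 * c * x * z + d * y ^ 2 + 2 * e * y * z + f * z ^ 2) := by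
    have e1 : (a : ℝ) * ((a : ℝ) * x ^ 2 + 2 * b * x * y + 2 * c * x * z + d * y ^ 2 + 2 * e * y * z + f * z ^ 2) =
        (a * x + b * y + c * z) ^ 2 + ((a * d - b * b) * y ^ 2 + 2 * (a * e - b * c) * y * z + (a * f - c * c) * z ^ 2) := by
      ring
    rw [e1]
    have := sq_nonneg ((a : ℝ) * x + b * y + c * z)
    linarith
  exact nonneg_of_mul_nonneg_right h3 h1

/-- the quadratic form of a matrix -/
noncomputable def S4.qf (A : S4) (x y z w : ℝ) : ℝ :=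
  (A.a00 : ℝ) * x ^ 2 + 2 * A.a01 * x * y + 2 * A.a02 * x * z + 2 * A.a03 * x * w + A.a11 * y ^ 2 +
    2 * A.a12 * y * z + 2 * A.a13 * y * w + A.a22 * z ^ 2 + 2 * A.a23 * z * w + A.a33 * w ^ 2

theorem psd4_sound {A : S4} (h : psd4 A = true) (x y z w : ℝ) : 0 ≤ A.qf x y z w := by
  simp only [psd4, Bool.and_eq_true, decide_eq_true_eq] at h
  have h1 : (0 : ℝ) < A.a00 := by exact_mod_cast h.1
  have h2 := psd3_sound h.2 y z w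
  push_cast at h2
  have h3 : 0 ≤ (A.a00 : ℝ) * A.qf x y z w := by
    unfold S4.qf
    have e1 : (A.a00 : ℝ) * ((A.a00 : ℝ) * x ^ 2 + 2 * A.a01 * x * y + 2 * A.a02 * x * z + 2 * A.a03 * x * w +
        A.a11 * y ^ 2 + 2 * A.a12 * y * z + 2 * A.a13 * y * w + A.a22 * z ^ 2 + 2 * A.a23 * z * w + A.a33 * w ^ 2) =
        (A.a00 * x + A.a01 * y + A.a02 * z + A.a03 * w) ^ 2 +
        ((A.a00 * A.a11 - A.a01 * A.a01) * y ^ 2 + 2 * (A.a00 * A.a12 - A.a01 * A.a02) * y * z +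
          2 * (A.a00 * A.a13 - A.a01 * A.a03) * y * w + (A.a00 * A.a22 - A.a02 * A.a02) * z ^ 2 +
          2 * (A.a00 * A.a23 - A.a02 * A.a03) * z * w + (A.a00 * A.a33 - A.a03 * A.a03) * w ^ 2) := by
      ring
    rw [e1]
    have := sq_nonneg ((A.a00 : ℝ) * x + A.a01 * y + A.a02 * z + A.a03 * w)
    linarith
  exact nonneg_of_mul_nonneg_right h3 h1

/-- contribution (times 2) of one edge to the form at a corner: `sg, s = ±1` choose the edge, `p, q` and `pc, qc` are `2 N D` at the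
corner and at the centre -/
def ed2 (sg s p q pc qc kN w : ℤ) : S4 :=
  let u0 := -2 * pc - 2 * sg * qc
  let u1 := sg * pc - 12 * qc
  let u2 := -4 * s * qc
  let u3 := 4 * s * pc
  let r0 := kN * (-2 * p - 2 * sg * q) - w * u0
  let r1 := kN * (sg * p - 12 * q) - w * u1
  let r2 := kN * (-4 * s * q) - w * u2
  let r3 := kN * (4 * s * p) - w * u3
  ⟨2 * (u0 * r0), u0 * r1 + u1 * r0, u0 * r2 + u2 * r0, u0 * r3 + u3 * r0, 2 * (u1 * r1), u1 * r2 + u2 * r1,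
    u1 * r3 + u3 * r1, 2 * (u2 * r2), u2 * r3 + u3 * r2, 2 * (u3 * r3)⟩

/-- sum of four matrices minus `t` times the projection on the last two coordinates -/
def sm (A B C D : S4) (t : ℤ) : S4 :=
  ⟨A.a00 + B.a00 + C.a00 + D.a00, A.a01 + B.a01 + C.a01 + D.a01, A.a02 + B.a02 + C.a02 + D.a02,
    A.a03 + B.a03 + C.a03 + D.a03, A.a11 + B.a11 + C.a11 + D.a11, A.a12 + B.a12 + C.a12 + D.a12,
    A.a13 + B.a13 + C.a13 + D.a13, A.a22 + B.a22 + C.a22 + D.a22 - t, A.a23 + B.a23 + C.a23 + D.a23,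
    A.a33 + B.a33 + C.a33 + D.a33 - t⟩

/-- upper bound of `64 N⁴ (|D|² + h²) |2 D + δ|²` at a corner -/
def wb (sg s p q hh dd L2 U2 L3 U3 A0 A1 E0 E1 : ℤ) : ℤ :=
  let n := p * p + 3 * (q * q)
  (n + hh * hh) * (16 * n + 8 * (mx (2 * sg * p - 6 * q) L2 U2 + mx (12 * p + 3 * sg * q) L3 U3 +
    mx (4 * s * p) A0 A1 + mx (12 * s * q) E0 E1) + dd)

/-- the data of a cell -/
structure BD where
  T2 : ℤ
  T3 : ℤ
  h1 : ℤ
  k1 : ℤ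
  m1 : ℤ
  h2 : ℤ
  k2 : ℤ
  m2 : ℤ
  h3 : ℤ
  k3 : ℤ
  m3 : ℤ
  h4 : ℤ
  k4 : ℤ
  m4 : ℤ

/-- one edge at a corner -/
def eg (N sg s X Y XX YY hh kN mm dd L2 U2 L3 U3 A0 A1 E0 E1 : ℤ) : S4 :=
  ed2 sg s (sg * N + 2 * s * X) (N + 2 * s * Y) (sg * N + s * XX) (N + s * YY) kN
    (mm * wb sg s (sg * N + 2 * s * X) (N + 2 * s * Y) hh dd L2 U2 L3 U3 A0 A1 E0 E1)

/-- the test at a corner -/
def cor (N F dd L2 U2 L3 U3 A0 A1 E0 E1 XX YY : ℤ) (D : BD) (X Y : ℤ) : Bool :=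
  psd4 (sm
    (eg N 1 1 X Y XX YY D.h1 (128 * N ^ 4 * D.k1) D.m1 dd L2 U2 L3 U3 A0 A1 E0 E1)
    (eg N 1 (-1) X Y XX YY D.h2 (128 * N ^ 4 * D.k2) D.m2 dd L2 U2 L3 U3 A0 A1 E0 E1)
    (eg N (-1) 1 X Y XX YY D.h3 (128 * N ^ 4 * D.k3) D.m3 dd L2 U2 L3 U3 A0 A1 E0 E1)
    (eg N (-1) (-1) X Y XX YY D.h4 (128 * N ^ 4 * D.k4) D.m4 dd L2 U2 L3 U3 A0 A1 E0 E1)
    (12288 * F * N ^ 6))

/-- conditions on `h, κ, μ` -/
def okk (hh kk mm dp dq : ℤ) : Bool :=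
  decide (0 < hh) && (decide (kk * kk ≤ 6 * (hh * mm)) &&
    (decide (dp * dp ≤ 32 * (hh * hh)) && decide (3 * (dq * dq) ≤ 32 * (hh * hh))))

/-- all corners, given the `b` box and the bounds `dp, dq` of `4 N |δ|` -/
def cors (N F : ℤ) (D : BD) (X0 X1 Y0 Y1 A0 A1 E0 E1 L2 U2 L3 U3 dp dq : ℤ) : Bool :=
  okk D.h1 D.k1 D.m1 dp dq && (okk D.h2 D.k2 D.m2 dp dq && (okk D.h3 D.k3 D.m3 dp dq &&
  (okk D.h4 D.k4 D.m4 dp dq &&
  (cor N F (dp * dp + 3 * (dq * dq)) L2 U2 L3 U3 A0 A1 E0 E1 (X0 + X1) (Y0 + Y1) D X0 Y0 &&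
  (cor N F (dp * dp + 3 * (dq * dq)) L2 U2 L3 U3 A0 A1 E0 E1 (X0 + X1) (Y0 + Y1) D X0 Y1 &&
  (cor N F (dp * dp + 3 * (dq * dq)) L2 U2 L3 U3 A0 A1 E0 E1 (X0 + X1) (Y0 + Y1) D X1 Y0 &&
  cor N F (dp * dp + 3 * (dq * dq)) L2 U2 L3 U3 A0 A1 E0 E1 (X0 + X1) (Y0 + Y1) D X1 Y1))))))

/-- absolute value bound of an interval -/
def ab (l u : ℤ) : ℤ := if -l ≤ u then u else -l

/-- the checker of a cell: `x0 ∈ [X0, X1]/N`, `y0 ∈ [Y0, Y1]/N`, `a ∈ [A0, A1]/N`, `d ∈ [E0, E1]/N` -/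
def leafB (N F P2 P3 lo hi be : ℤ) (D : BD) (X0 X1 Y0 Y1 A0 A1 E0 E1 : ℤ) : Bool :=
  decide (0 ≤ D.T2) && (decide (0 ≤ D.T3) &&
  (decide (3 * (F * (ab A0 A1 * ab A0 A1 + ab E0 E1 * ab E0 E1)) ≤ 2 * (P2 * (D.T2 * D.T2))) &&
  (decide (F * (ab A0 A1 * ab A0 A1 + ab E0 E1 * ab E0 E1) ≤ 2 * (P3 * (D.T3 * D.T3))) &&
  cors N F D X0 X1 Y0 Y1 A0 A1 E0 E1 (lo - D.T2) (hi + D.T2) (-(be + D.T3)) (be + D.T3)
    (2 * ab (lo - D.T2) (hi + D.T2) + 12 * (be + D.T3) + 4 * ab A0 A1)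
    (2 * ab (lo - D.T2) (hi + D.T2) + (be + D.T3) + 4 * ab E0 E1))))

/-! ### real part -/

/-- the quadratic minorant of one Bregman term -/
noncomputable def Ek (κ μ h pc qc p q u v : ℝ) : ℝ :=
  2 * κ * (pc * v - qc * u) * (p * v - q * u) -
    μ * (pc * v - qc * u) ^ 2 * ((p ^ 2 + 3 * q ^ 2 + h ^ 2) * ((2 * p + u) ^ 2 + 3 * (2 * q + v) ^ 2))

theorem edge_alg (κ μ h H E T R τ c m : ℝ) (hH : 0 < H) (hR : 0 ≤ R) (hh : 0 < h) (hk : κ ^ 2 ≤ 12 * h * μ)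
    (hm0 : 0 ≤ m) (hRH : R * H = H * E - T) (hid : (H * E - T) * (H * E + T) = 3 * τ ^ 2)
    (h2 : H ^ 2 + E ^ 2 + 2 * T = 4 * m) :
    2 * κ * c * τ - 4 * μ * c ^ 2 * ((H ^ 2 + h ^ 2) * m) ≤ R := by
  have hle : H * E + T ≤ 2 * m := by
    have h1 : 2 * (H * E) ≤ H ^ 2 + E ^ 2 := by nlinarith [sq_nonneg (H - E)]
    linarith
  have hRH0 : 0 ≤ R * H := mul_nonneg hR hH.le
  have h3 : 3 * τ ^ 2 ≤ R * H * (2 * m) := by
    rw [← hid, ← hRH]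
    exact mul_le_mul_of_nonneg_left hle hRH0
  have h4 : 2 * (h * H) ≤ H ^ 2 + h ^ 2 := by nlinarith [sq_nonneg (H - h)]
  have h5 : 3 * h * τ ^ 2 ≤ R * ((H ^ 2 + h ^ 2) * m) := by
    have h6 : h * (3 * τ ^ 2) ≤ h * (R * H * (2 * m)) := mul_le_mul_of_nonneg_left h3 hh.le
    have h7 : h * (R * H * (2 * m)) = (R * m) * (2 * (h * H)) := by ring
    have h8 : (R * m) * (2 * (h * H)) ≤ (R * m) * (H ^ 2 + h ^ 2) :=
      mul_le_mul_of_nonneg_left h4 (mul_nonneg hR hm0)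
    calc 3 * h * τ ^ 2 = h * (3 * τ ^ 2) := by ring
      _ ≤ (R * m) * (H ^ 2 + h ^ 2) := by rw [h7] at h6; exact h6.trans h8
      _ = R * ((H ^ 2 + h ^ 2) * m) := by ring
  have hG0 : 0 < H ^ 2 + h ^ 2 := by positivity
  have hGn : 0 ≤ (H ^ 2 + h ^ 2) * m := mul_nonneg hG0.le hm0
  generalize (H ^ 2 + h ^ 2) * m = G at h5 hGn ⊢
  rcases hGn.eq_or_lt with h0 | h0
  · rw [← h0] at h5 ⊢
    have h6 : h * τ ^ 2 ≤ 0 := by linarith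
    have h7 : τ ^ 2 ≤ 0 := by
      by_contra hc
      push Not at hc
      have := mul_pos hh hc
      linarith
    have hτ0 : τ = 0 := by
      have := sq_nonneg τ
      exact pow_eq_zero_iff (two_ne_zero) |>.1 (le_antisymm h7 this)
    rw [hτ0]
    linarith
  · have h10 : κ ^ 2 * (c ^ 2 * G ^ 2) ≤ 12 * h * μ * (c ^ 2 * G ^ 2) :=
      mul_le_mul_of_nonneg_right hk (by positivity)
    have h11 : 0 ≤ (3 * h * τ - κ * c * G) ^ 2 := sq_nonneg _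
    have e1 : 3 * h * ((2 * κ * c * τ - 4 * μ * c ^ 2 * G) * G) =
        6 * h * κ * c * τ * G - 12 * h * μ * (c ^ 2 * G ^ 2) := by ring
    have e2 : 6 * h * κ * c * τ * G - κ ^ 2 * (c ^ 2 * G ^ 2) =
        3 * h * (3 * h * τ ^ 2) - (3 * h * τ - κ * c * G) ^ 2 := by ring
    have h12 : 3 * h * ((2 * κ * c * τ - 4 * μ * c ^ 2 * G) * G) ≤ 3 * h * (3 * h * τ ^ 2) := by
      rw [e1]
      linarith
    have h9 : (2 * κ * c * τ - 4 * μ * c ^ 2 * G) * G ≤ 3 * h * τ ^ 2 :=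
      le_of_mul_le_mul_left h12 (by positivity)
    exact le_of_mul_le_mul_right (h9.trans h5) h0

theorem edge_real (κ μ h pc qc p q u v : ℝ) (hD : 0 < nr p q) (hh : 0 < h) (hk : κ ^ 2 ≤ 12 * h * μ) :
    Ek κ μ h pc qc p q u v ≤ rk p q (p + u) (q + v) := by
  have hR := rk_nonneg p q (p + u) (q + v) hD
  have hE := nr_sq (p + u) (q + v)
  have hH := nr_sq p q
  have hRH : rk p q (p + u) (q + v) * nr p q =
      nr p q * nr (p + u) (q + v) - (p * (p + u) + 3 * (q * (q + v))) := by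
    rw [rk_eq p q _ _ hD, div_mul_cancel₀ _ hD.ne']
  have hid : (nr p q * nr (p + u) (q + v) - (p * (p + u) + 3 * (q * (q + v)))) *
      (nr p q * nr (p + u) (q + v) + (p * (p + u) + 3 * (q * (q + v)))) = 3 * (p * v - q * u) ^ 2 := by
    have : (nr p q * nr (p + u) (q + v) - (p * (p + u) + 3 * (q * (q + v)))) *
      (nr p q * nr (p + u) (q + v) + (p * (p + u) + 3 * (q * (q + v)))) =
      nr p q ^ 2 * nr (p + u) (q + v) ^ 2 - (p * (p + u) + 3 * (q * (q + v))) ^ 2 := by ring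
    rw [this, hE, hH]
    ring
  have h2 : nr p q ^ 2 + nr (p + u) (q + v) ^ 2 + 2 * (p * (p + u) + 3 * (q * (q + v))) =
      4 * (((2 * p + u) ^ 2 + 3 * (2 * q + v) ^ 2) / 4) := by
    rw [hE, hH]
    ring
  have := edge_alg κ μ h (nr p q) (nr (p + u) (q + v)) (p * (p + u) + 3 * (q * (q + v)))
    (rk p q (p + u) (q + v)) (p * v - q * u) (pc * v - qc * u) (((2 * p + u) ^ 2 + 3 * (2 * q + v) ^ 2) / 4)
    hD hR hh hk (by positivity) hRH hid h2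
  rw [hH] at this
  refine le_trans (le_of_eq ?_) this
  unfold Ek
  ring

/-- convexity of the quartic -/
theorem quart (θ u0 u1 A s B : ℝ) (h0 : 0 ≤ θ) (h1 : θ ≤ 1) (hs : s ^ 2 ≤ 8 * A) (hB : 0 ≤ B) :
    (((1 - θ) * u0 + θ * u1) ^ 2 + A) * ((2 * ((1 - θ) * u0 + θ * u1) + s) ^ 2 + B) ≤
      (1 - θ) * ((u0 ^ 2 + A) * ((2 * u0 + s) ^ 2 + B)) + θ * ((u1 ^ 2 + A) * ((2 * u1 + s) ^ 2 + B)) := by
  set u := (1 - θ) * u0 + θ * u1 with hu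
  have e : (1 - θ) * ((u0 ^ 2 + A) * ((2 * u0 + s) ^ 2 + B)) + θ * ((u1 ^ 2 + A) * ((2 * u1 + s) ^ 2 + B)) -
      (u ^ 2 + A) * ((2 * u + s) ^ 2 + B) = θ * (1 - θ) * (u1 - u0) ^ 2 *
        (4 * (u0 ^ 2 + u ^ 2 + u1 ^ 2 + u0 * u + u0 * u1 + u * u1) + 4 * s * (u0 + u + u1) + s ^ 2 + 4 * A + B) := by
    rw [hu]; ring
  have hK : 0 ≤ 4 * (u0 ^ 2 + u ^ 2 + u1 ^ 2 + u0 * u + u0 * u1 + u * u1) + 4 * s * (u0 + u + u1) + s ^ 2 +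
      4 * A + B := by
    nlinarith [sq_nonneg (4 * (u0 + u + u1) + 3 * s), sq_nonneg (u0 - u), sq_nonneg (u0 - u1),
      sq_nonneg (u - u1)]
  have h2 : 0 ≤ θ * (1 - θ) * (u1 - u0) ^ 2 := by
    have := mul_nonneg h0 (sub_nonneg.2 h1)
    positivity
  have := mul_nonneg h2 hK
  linarith

theorem Ek_x (θ κ μ h pc qc p0 p1 q u v : ℝ) (h0 : 0 ≤ θ) (h1 : θ ≤ 1) (hμ : 0 ≤ μ)
    (hu : u ^ 2 ≤ 8 * h ^ 2) :
    (1 - θ) * Ek κ μ h pc qc p0 q u v + θ * Ek κ μ h pc qc p1 q u v ≤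
      Ek κ μ h pc qc ((1 - θ) * p0 + θ * p1) q u v := by
  have hq := quart θ p0 p1 (3 * q ^ 2 + h ^ 2) u (3 * (2 * q + v) ^ 2) h0 h1
    (by nlinarith [sq_nonneg q]) (by positivity)
  have h2 := mul_le_mul_of_nonneg_left hq (mul_nonneg hμ (sq_nonneg (pc * v - qc * u)))
  have e : ∀ p : ℝ, Ek κ μ h pc qc p q u v = 2 * κ * (pc * v - qc * u) * (p * v - q * u) -
      μ * (pc * v - qc * u) ^ 2 * ((p ^ 2 + (3 * q ^ 2 + h ^ 2)) * ((2 * p + u) ^ 2 + 3 * (2 * q + v) ^ 2)) := by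
    intro p
    unfold Ek
    ring
  rw [e, e, e]
  linarith

theorem Ek_y (θ κ μ h pc qc p q0 q1 u v : ℝ) (h0 : 0 ≤ θ) (h1 : θ ≤ 1) (hμ : 0 ≤ μ)
    (hv : 3 * v ^ 2 ≤ 8 * h ^ 2) :
    (1 - θ) * Ek κ μ h pc qc p q0 u v + θ * Ek κ μ h pc qc p q1 u v ≤
      Ek κ μ h pc qc p ((1 - θ) * q0 + θ * q1) u v := by
  have hq := quart θ q0 q1 ((p ^ 2 + h ^ 2) / 3) v ((2 * p + u) ^ 2 / 3) h0 h1
    (by nlinarith [sq_nonneg p]) (by positivity)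
  have h2 := mul_le_mul_of_nonneg_left hq (mul_nonneg hμ (sq_nonneg (pc * v - qc * u)))
  have e : ∀ q : ℝ, Ek κ μ h pc qc p q u v = 2 * κ * (pc * v - qc * u) * (p * v - q * u) -
      9 * (μ * (pc * v - qc * u) ^ 2 * ((q ^ 2 + (p ^ 2 + h ^ 2) / 3) * ((2 * q + v) ^ 2 + (2 * p + u) ^ 2 / 3))) := by
    intro q
    unfold Ek
    ring
  rw [e, e, e]
  linarith

/-! ### from the integers to the reals -/

theorem wb_ge {N sg s P Q hh dd L2 U2 L3 U3 A0 A1 E0 E1 : ℤ} {p q b g a d u v : ℝ}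
    (hN : 0 < (N : ℝ)) (hP : (P : ℝ) = 2 * N * p) (hQ : (Q : ℝ) = 2 * N * q)
    (hu : u = sg * b / 2 + 3 * g + s * a) (hv : v = -b / 2 + sg * g / 4 + s * d)
    (b1 : (L2 : ℝ) ≤ N * b) (b2 : N * b ≤ U2) (g1 : (L3 : ℝ) ≤ N * g) (g2 : N * g ≤ U3)
    (a1 : (A0 : ℝ) ≤ N * a) (a2 : N * a ≤ A1) (d1 : (E0 : ℝ) ≤ N * d) (d2 : N * d ≤ E1)
    (hdd : 16 * (N : ℝ) ^ 2 * (u ^ 2 + 3 * v ^ 2) ≤ dd) :
    64 * (N : ℝ) ^ 4 * ((p ^ 2 + 3 * q ^ 2 + ((hh : ℝ) / (2 * N)) ^ 2) * ((2 * p + u) ^ 2 + 3 * (2 * q + v) ^ 2)) ≤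
      (wb sg s P Q hh dd L2 U2 L3 U3 A0 A1 E0 E1 : ℤ) := by
  have c0 := mx_ge (c := 2 * sg * P - 6 * Q) b1 b2
  have c1 := mx_ge (c := 12 * P + 3 * sg * Q) g1 g2
  have c2 := mx_ge (c := 4 * s * P) a1 a2
  have c3 := mx_ge (c := 12 * s * Q) d1 d2
  unfold wb
  push_cast at c0 c1 c2 c3 ⊢
  generalize ((mx (2 * sg * P - 6 * Q) L2 U2 : ℤ) : ℝ) = M0 at c0 ⊢
  generalize ((mx (12 * P + 3 * sg * Q) L3 U3 : ℤ) : ℝ) = M1 at c1 ⊢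
  generalize ((mx (4 * s * P) A0 A1 : ℤ) : ℝ) = M2 at c2 ⊢
  generalize ((mx (12 * s * Q) E0 E1 : ℤ) : ℝ) = M3 at c3 ⊢
  simp only [hP, hQ] at c0 c1 c2 c3 ⊢
  have e1 : (2 * (N : ℝ) * p * (2 * N * p) + 3 * (2 * N * q * (2 * N * q)) + (hh : ℝ) * hh) =
      4 * N ^ 2 * (p ^ 2 + 3 * q ^ 2 + ((hh : ℝ) / (2 * N)) ^ 2) := by
    field_simp
    ring
  rw [e1]
  have h1 : 0 ≤ 4 * (N : ℝ) ^ 2 * (p ^ 2 + 3 * q ^ 2 + ((hh : ℝ) / (2 * N)) ^ 2) := by positivity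
  have h2 : 16 * (N : ℝ) ^ 2 * ((2 * p + u) ^ 2 + 3 * (2 * q + v) ^ 2) ≤
      16 * (2 * (N : ℝ) * p * (2 * N * p) + 3 * (2 * N * q * (2 * N * q))) + 8 * (M0 + M1 + M2 + M3) + dd := by
    have e2 : 16 * (N : ℝ) ^ 2 * ((2 * p + u) ^ 2 + 3 * (2 * q + v) ^ 2) =
        16 * (2 * (N : ℝ) * p * (2 * N * p) + 3 * (2 * N * q * (2 * N * q))) +
        64 * N ^ 2 * (p * u + 3 * (q * v)) + 16 * (N : ℝ) ^ 2 * (u ^ 2 + 3 * v ^ 2) := by ring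
    have e3 : 64 * (N : ℝ) ^ 2 * (p * u + 3 * (q * v)) =
        8 * ((2 * sg * (2 * N * p) - 6 * (2 * N * q)) * (N * b) + (12 * (2 * N * p) + 3 * sg * (2 * N * q)) * (N * g) +
          (4 * s * (2 * N * p)) * (N * a) + (12 * s * (2 * N * q)) * (N * d)) := by
      rw [hu, hv]
      ring
    rw [e2, e3]
    linarith
  calc 64 * (N : ℝ) ^ 4 * ((p ^ 2 + 3 * q ^ 2 + ((hh : ℝ) / (2 * N)) ^ 2) * ((2 * p + u) ^ 2 + 3 * (2 * q + v) ^ 2))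
      = 4 * (N : ℝ) ^ 2 * (p ^ 2 + 3 * q ^ 2 + ((hh : ℝ) / (2 * N)) ^ 2) *
        (16 * (N : ℝ) ^ 2 * ((2 * p + u) ^ 2 + 3 * (2 * q + v) ^ 2)) := by ring
    _ ≤ _ := mul_le_mul_of_nonneg_left h2 h1

theorem ed_le {N sg s P Q PC QC hh kk mm dd L2 U2 L3 U3 A0 A1 E0 E1 : ℤ} {p q pc qc b g a d u v : ℝ}
    (hN : 0 < (N : ℝ)) (hP : (P : ℝ) = 2 * N * p) (hQ : (Q : ℝ) = 2 * N * q)
    (hPC : (PC : ℝ) = 2 * N * pc) (hQC : (QC : ℝ) = 2 * N * qc) (hmm : 0 ≤ (mm : ℝ))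
    (hu : u = sg * b / 2 + 3 * g + s * a) (hv : v = -b / 2 + sg * g / 4 + s * d)
    (b1 : (L2 : ℝ) ≤ N * b) (b2 : N * b ≤ U2) (g1 : (L3 : ℝ) ≤ N * g) (g2 : N * g ≤ U3)
    (a1 : (A0 : ℝ) ≤ N * a) (a2 : N * a ≤ A1) (d1 : (E0 : ℝ) ≤ N * d) (d2 : N * d ≤ E1)
    (hdd : 16 * (N : ℝ) ^ 2 * (u ^ 2 + 3 * v ^ 2) ≤ dd) :
    (ed2 sg s P Q PC QC (128 * N ^ 4 * kk) (mm * wb sg s P Q hh dd L2 U2 L3 U3 A0 A1 E0 E1)).qf b g a d ≤
      8192 * (N : ℝ) ^ 7 * Ek (kk / N) (mm / N) (hh / (2 * N)) pc qc p q u v := by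
  have hw := wb_ge (hh := hh) hN hP hQ hu hv b1 b2 g1 g2 a1 a2 d1 d2 hdd
  generalize wb sg s P Q hh dd L2 U2 L3 U3 A0 A1 E0 E1 = W at hw ⊢
  have e1 : (ed2 sg s P Q PC QC (128 * N ^ 4 * kk) (mm * W)).qf b g a d =
      16384 * (N : ℝ) ^ 6 * kk * (pc * v - qc * u) * (p * v - q * u) -
        128 * (N : ℝ) ^ 2 * (mm * W) * (pc * v - qc * u) ^ 2 := by
    unfold ed2 S4.qf
    push_cast
    rw [hP, hQ, hPC, hQC, hu, hv]
    ring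
  rw [e1]
  have e2 : 8192 * (N : ℝ) ^ 7 * Ek (kk / N) (mm / N) (hh / (2 * N)) pc qc p q u v =
      16384 * (N : ℝ) ^ 6 * kk * (pc * v - qc * u) * (p * v - q * u) -
        128 * (N : ℝ) ^ 2 * mm * (pc * v - qc * u) ^ 2 * (64 * (N : ℝ) ^ 4 *
          ((p ^ 2 + 3 * q ^ 2 + ((hh : ℝ) / (2 * N)) ^ 2) * ((2 * p + u) ^ 2 + 3 * (2 * q + v) ^ 2))) := by
    unfold Ek
    field_simp
    ring
  rw [e2]
  have h3 : 0 ≤ 128 * (N : ℝ) ^ 2 * mm * (pc * v - qc * u) ^ 2 := by positivity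
  have h4 := mul_le_mul_of_nonneg_left hw h3
  have e3 : 128 * (N : ℝ) ^ 2 * (mm * W) * (pc * v - qc * u) ^ 2 =
      128 * (N : ℝ) ^ 2 * mm * (pc * v - qc * u) ^ 2 * W := by ring
  rw [e3]
  linarith

end Pool.Agent.Helper48.TB
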