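import Pool.Agent.Helper48.SH.TB
import Pool.Agent.Helper88.SH.TS

/-!
# SHARP (MP_b21509_co), link (4): soundness of test (B)
-/

set_option autoImplicit false

namespace Pool.Agent.Helper48.TB

open Pool.Agent.Helper88.P4

theorem qf_sm (A B C D : S4) (t : ℤ) (x y z w : ℝ) :
    (sm A B C D t).qf x y z w =
      A.qf x y z w + B.qf x y z w + C.qf x y z w + D.qf x y z w - t * (z ^ 2 + w ^ 2) := by
  unfold sm S4.qf
  push_cast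
  ring

/-- the sum of the four minorants -/
noncomputable def Sk (N : ℝ) (D : BD) (xc yc x0 y0 b g a d : ℝ) : ℝ :=
  Ek (D.k1 / N) (D.m1 / N) (D.h1 / (2 * N)) (1 / 2 + xc) (1 / 2 + yc) (1 / 2 + x0) (1 / 2 + y0)
    (b / 2 + 3 * g + a) (-b / 2 + g / 4 + d) +
  Ek (D.k2 / N) (D.m2 / N) (D.h2 / (2 * N)) (1 / 2 - xc) (1 / 2 - yc) (1 / 2 - x0) (1 / 2 - y0)
    (b / 2 + 3 * g - a) (-b / 2 + g / 4 - d) +
  Ek (D.k3 / N) (D.m3 / N) (D.h3 / (2 * N)) (-1 / 2 + xc) (1 / 2 + yc) (-1 / 2 + x0) (1 / 2 + y0)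
    (-b / 2 + 3 * g + a) (-b / 2 - g / 4 + d) +
  Ek (D.k4 / N) (D.m4 / N) (D.h4 / (2 * N)) (-1 / 2 - xc) (1 / 2 - yc) (-1 / 2 - x0) (1 / 2 - y0)
    (-b / 2 + 3 * g - a) (-b / 2 - g / 4 - d)

theorem cor_sound {N F dp dq L2 U2 L3 U3 A0 A1 E0 E1 XX YY : ℤ} {D : BD} {X Y : ℤ} {b g a d : ℝ}
    (h : cor N F (dp * dp + 3 * (dq * dq)) L2 U2 L3 U3 A0 A1 E0 E1 XX YY D X Y = true)
    (hN : 0 < (N : ℝ)) (hm1 : 0 ≤ (D.m1 : ℝ)) (hm2 : 0 ≤ (D.m2 : ℝ)) (hm3 : 0 ≤ (D.m3 : ℝ)) (hm4 : 0 ≤ (D.m4 : ℝ))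
    (b1 : (L2 : ℝ) ≤ N * b) (b2 : N * b ≤ U2) (g1 : (L3 : ℝ) ≤ N * g) (g2 : N * g ≤ U3)
    (a1 : (A0 : ℝ) ≤ N * a) (a2 : N * a ≤ A1) (d1 : (E0 : ℝ) ≤ N * d) (d2 : N * d ≤ E1)
    (u1 : 4 * (N : ℝ) * |b / 2 + 3 * g + a| ≤ dp) (u2 : 4 * (N : ℝ) * |b / 2 + 3 * g - a| ≤ dp)
    (u3 : 4 * (N : ℝ) * |-b / 2 + 3 * g + a| ≤ dp) (u4 : 4 * (N : ℝ) * |-b / 2 + 3 * g - a| ≤ dp)
    (v1 : 4 * (N : ℝ) * |-b / 2 + g / 4 + d| ≤ dq) (v2 : 4 * (N : ℝ) * |-b / 2 + g / 4 - d| ≤ dq)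
    (v3 : 4 * (N : ℝ) * |-b / 2 - g / 4 + d| ≤ dq) (v4 : 4 * (N : ℝ) * |-b / 2 - g / 4 - d| ≤ dq) :
    3 / 2 * (F / N) * (a ^ 2 + d ^ 2) ≤ Sk N D (XX / (2 * N)) (YY / (2 * N)) (X / N) (Y / N) b g a d := by
  have hN0 : (N : ℝ) ≠ 0 := hN.ne'
  have dd : ∀ u v : ℝ, 4 * (N : ℝ) * |u| ≤ dp → 4 * (N : ℝ) * |v| ≤ dq →
      16 * (N : ℝ) ^ 2 * (u ^ 2 + 3 * v ^ 2) ≤ ((dp * dp + 3 * (dq * dq) : ℤ) : ℝ) := by
    intro u v hu hv
    have h1 : (4 * (N : ℝ) * |u|) ^ 2 ≤ (dp : ℝ) ^ 2 := pow_le_pow_left₀ (by positivity) hu 2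
    have h2 : (4 * (N : ℝ) * |v|) ^ 2 ≤ (dq : ℝ) ^ 2 := pow_le_pow_left₀ (by positivity) hv 2
    rw [mul_pow, mul_pow, sq_abs] at h1 h2
    push_cast
    nlinarith
  have hp := psd4_sound h b g a d
  rw [qf_sm] at hp
  unfold eg at hp
  have e1 := ed_le (sg := 1) (s := 1) (P := 1 * N + 2 * 1 * X) (Q := N + 2 * 1 * Y) (PC := 1 * N + 1 * XX)
    (QC := N + 1 * YY) (hh := D.h1) (kk := D.k1) (mm := D.m1) (p := 1 / 2 + X / N) (q := 1 / 2 + Y / N)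
    (pc := 1 / 2 + XX / (2 * N)) (qc := 1 / 2 + YY / (2 * N)) (u := b / 2 + 3 * g + a) (v := -b / 2 + g / 4 + d)
    (dd := dp * dp + 3 * (dq * dq)) hN
    (by push_cast; field_simp) (by push_cast; field_simp) (by push_cast; field_simp)
    (by push_cast; field_simp) hm1 (by push_cast; ring) (by push_cast; ring) b1 b2 g1 g2 a1 a2 d1 d2
    (dd _ _ u1 v1)
  have e2 := ed_le (sg := 1) (s := -1) (P := 1 * N + 2 * (-1) * X) (Q := N + 2 * (-1) * Y) (PC := 1 * N + (-1) * XX)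
    (QC := N + (-1) * YY) (hh := D.h2) (kk := D.k2) (mm := D.m2) (p := 1 / 2 - X / N) (q := 1 / 2 - Y / N)
    (pc := 1 / 2 - XX / (2 * N)) (qc := 1 / 2 - YY / (2 * N)) (u := b / 2 + 3 * g - a) (v := -b / 2 + g / 4 - d)
    (dd := dp * dp + 3 * (dq * dq)) hN
    (by push_cast; field_simp; ring) (by push_cast; field_simp; ring) (by push_cast; field_simp; ring)
    (by push_cast; field_simp; ring) hm2 (by push_cast; ring) (by push_cast; ring) b1 b2 g1 g2 a1 a2 d1 d2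
    (dd _ _ u2 v2)
  have e3 := ed_le (sg := -1) (s := 1) (P := -1 * N + 2 * 1 * X) (Q := N + 2 * 1 * Y) (PC := -1 * N + 1 * XX)
    (QC := N + 1 * YY) (hh := D.h3) (kk := D.k3) (mm := D.m3) (p := -1 / 2 + X / N) (q := 1 / 2 + Y / N)
    (pc := -1 / 2 + XX / (2 * N)) (qc := 1 / 2 + YY / (2 * N)) (u := -b / 2 + 3 * g + a) (v := -b / 2 - g / 4 + d)
    (dd := dp * dp + 3 * (dq * dq)) hN
    (by push_cast; field_simp) (by push_cast; field_simp) (by push_cast; field_simp)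
    (by push_cast; field_simp) hm3 (by push_cast; ring) (by push_cast; ring) b1 b2 g1 g2 a1 a2 d1 d2
    (dd _ _ u3 v3)
  have e4 := ed_le (sg := -1) (s := -1) (P := -1 * N + 2 * (-1) * X) (Q := N + 2 * (-1) * Y) (PC := -1 * N + (-1) * XX)
    (QC := N + (-1) * YY) (hh := D.h4) (kk := D.k4) (mm := D.m4) (p := -1 / 2 - X / N) (q := 1 / 2 - Y / N)
    (pc := -1 / 2 - XX / (2 * N)) (qc := 1 / 2 - YY / (2 * N)) (u := -b / 2 + 3 * g - a) (v := -b / 2 - g / 4 - d)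
    (dd := dp * dp + 3 * (dq * dq)) hN
    (by push_cast; field_simp; ring) (by push_cast; field_simp; ring) (by push_cast; field_simp; ring)
    (by push_cast; field_simp; ring) hm4 (by push_cast; ring) (by push_cast; ring) b1 b2 g1 g2 a1 a2 d1 d2
    (dd _ _ u4 v4)
  have h5 : 12288 * (F : ℝ) * N ^ 6 * (a ^ 2 + d ^ 2) ≤ 8192 * (N : ℝ) ^ 7 *
      Sk N D (XX / (2 * N)) (YY / (2 * N)) (X / N) (Y / N) b g a d := by
    push_cast at hp e1 e2 e3 e4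
    unfold Sk
    linarith
  have h6 : 8192 * (N : ℝ) ^ 7 * (3 / 2 * (F / N) * (a ^ 2 + d ^ 2)) = 12288 * (F : ℝ) * N ^ 6 * (a ^ 2 + d ^ 2) := by
    field_simp
    ring
  rw [← h6] at h5
  exact le_of_mul_le_mul_left h5 (by positivity)

/-- concavity in `x0` -/
theorem Sk_x {N : ℝ} {D : BD} {xc yc y0 b g a d : ℝ} (hm1 : 0 ≤ (D.m1 : ℝ) / N) (hm2 : 0 ≤ (D.m2 : ℝ) / N)
    (hm3 : 0 ≤ (D.m3 : ℝ) / N) (hm4 : 0 ≤ (D.m4 : ℝ) / N)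
    (u1 : (b / 2 + 3 * g + a) ^ 2 ≤ 8 * (D.h1 / (2 * N)) ^ 2) (u2 : (b / 2 + 3 * g - a) ^ 2 ≤ 8 * (D.h2 / (2 * N)) ^ 2)
    (u3 : (-b / 2 + 3 * g + a) ^ 2 ≤ 8 * (D.h3 / (2 * N)) ^ 2) (u4 : (-b / 2 + 3 * g - a) ^ 2 ≤ 8 * (D.h4 / (2 * N)) ^ 2)
    {θ xa xb : ℝ} (h0 : 0 ≤ θ) (h1 : θ ≤ 1) :
    (1 - θ) * Sk N D xc yc xa y0 b g a d + θ * Sk N D xc yc xb y0 b g a d ≤
      Sk N D xc yc ((1 - θ) * xa + θ * xb) y0 b g a d := by
  have e1 := Ek_x θ (D.k1 / N) (D.m1 / N) (D.h1 / (2 * N)) (1 / 2 + xc) (1 / 2 + yc) (1 / 2 + xa) (1 / 2 + xb)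
    (1 / 2 + y0) (b / 2 + 3 * g + a) (-b / 2 + g / 4 + d) h0 h1 hm1 u1
  have e2 := Ek_x θ (D.k2 / N) (D.m2 / N) (D.h2 / (2 * N)) (1 / 2 - xc) (1 / 2 - yc) (1 / 2 - xa) (1 / 2 - xb)
    (1 / 2 - y0) (b / 2 + 3 * g - a) (-b / 2 + g / 4 - d) h0 h1 hm2 u2
  have e3 := Ek_x θ (D.k3 / N) (D.m3 / N) (D.h3 / (2 * N)) (-1 / 2 + xc) (1 / 2 + yc) (-1 / 2 + xa) (-1 / 2 + xb)
    (1 / 2 + y0) (-b / 2 + 3 * g + a) (-b / 2 - g / 4 + d) h0 h1 hm3 u3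
  have e4 := Ek_x θ (D.k4 / N) (D.m4 / N) (D.h4 / (2 * N)) (-1 / 2 - xc) (1 / 2 - yc) (-1 / 2 - xa) (-1 / 2 - xb)
    (1 / 2 - y0) (-b / 2 + 3 * g - a) (-b / 2 - g / 4 - d) h0 h1 hm4 u4
  have f1 : (1 - θ) * (1 / 2 + xa) + θ * (1 / 2 + xb) = 1 / 2 + ((1 - θ) * xa + θ * xb) := by ring
  have f2 : (1 - θ) * (1 / 2 - xa) + θ * (1 / 2 - xb) = 1 / 2 - ((1 - θ) * xa + θ * xb) := by ring
  have f3 : (1 - θ) * (-1 / 2 + xa) + θ * (-1 / 2 + xb) = -1 / 2 + ((1 - θ) * xa + θ * xb) := by ring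
  have f4 : (1 - θ) * (-1 / 2 - xa) + θ * (-1 / 2 - xb) = -1 / 2 - ((1 - θ) * xa + θ * xb) := by ring
  rw [f1] at e1
  rw [f2] at e2
  rw [f3] at e3
  rw [f4] at e4
  unfold Sk
  linarith

/-- concavity in `y0` -/
theorem Sk_y {N : ℝ} {D : BD} {xc yc x0 b g a d : ℝ} (hm1 : 0 ≤ (D.m1 : ℝ) / N) (hm2 : 0 ≤ (D.m2 : ℝ) / N)
    (hm3 : 0 ≤ (D.m3 : ℝ) / N) (hm4 : 0 ≤ (D.m4 : ℝ) / N)
    (v1 : 3 * (-b / 2 + g / 4 + d) ^ 2 ≤ 8 * (D.h1 / (2 * N)) ^ 2)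
    (v2 : 3 * (-b / 2 + g / 4 - d) ^ 2 ≤ 8 * (D.h2 / (2 * N)) ^ 2)
    (v3 : 3 * (-b / 2 - g / 4 + d) ^ 2 ≤ 8 * (D.h3 / (2 * N)) ^ 2)
    (v4 : 3 * (-b / 2 - g / 4 - d) ^ 2 ≤ 8 * (D.h4 / (2 * N)) ^ 2)
    {θ ya yb : ℝ} (h0 : 0 ≤ θ) (h1 : θ ≤ 1) :
    (1 - θ) * Sk N D xc yc x0 ya b g a d + θ * Sk N D xc yc x0 yb b g a d ≤
      Sk N D xc yc x0 ((1 - θ) * ya + θ * yb) b g a d := by
  have e1 := Ek_y θ (D.k1 / N) (D.m1 / N) (D.h1 / (2 * N)) (1 / 2 + xc) (1 / 2 + yc) (1 / 2 + x0) (1 / 2 + ya)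
    (1 / 2 + yb) (b / 2 + 3 * g + a) (-b / 2 + g / 4 + d) h0 h1 hm1 v1
  have e2 := Ek_y θ (D.k2 / N) (D.m2 / N) (D.h2 / (2 * N)) (1 / 2 - xc) (1 / 2 - yc) (1 / 2 - x0) (1 / 2 - ya)
    (1 / 2 - yb) (b / 2 + 3 * g - a) (-b / 2 + g / 4 - d) h0 h1 hm2 v2
  have e3 := Ek_y θ (D.k3 / N) (D.m3 / N) (D.h3 / (2 * N)) (-1 / 2 + xc) (1 / 2 + yc) (-1 / 2 + x0) (1 / 2 + ya)
    (1 / 2 + yb) (-b / 2 + 3 * g + a) (-b / 2 - g / 4 + d) h0 h1 hm3 v3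
  have e4 := Ek_y θ (D.k4 / N) (D.m4 / N) (D.h4 / (2 * N)) (-1 / 2 - xc) (1 / 2 - yc) (-1 / 2 - x0) (1 / 2 - ya)
    (1 / 2 - yb) (-b / 2 + 3 * g - a) (-b / 2 - g / 4 - d) h0 h1 hm4 v4
  have f1 : (1 - θ) * (1 / 2 + ya) + θ * (1 / 2 + yb) = 1 / 2 + ((1 - θ) * ya + θ * yb) := by ring
  have f2 : (1 - θ) * (1 / 2 - ya) + θ * (1 / 2 - yb) = 1 / 2 - ((1 - θ) * ya + θ * yb) := by ring
  rw [f1] at e1 e3
  rw [f2] at e2 e4
  unfold Sk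
  linarith

theorem conv_par {x a b : ℝ} (h1 : a ≤ x) (h2 : x ≤ b) : ∃ θ : ℝ, 0 ≤ θ ∧ θ ≤ 1 ∧ x = (1 - θ) * a + θ * b := by
  rcases (h1.trans h2).eq_or_lt with h | h
  · refine ⟨0, le_rfl, zero_le_one, ?_⟩
    have : x = a := le_antisymm (by rw [h]; exact h2) h1
    rw [this]; ring
  · have hb : 0 < b - a := sub_pos.2 h
    refine ⟨(x - a) / (b - a), div_nonneg (by linarith) hb.le, ?_, ?_⟩
    · rw [div_le_one hb]; linarith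
    · field_simp
      ring

theorem min_conv {θ p q c : ℝ} (h0 : 0 ≤ θ) (h1 : θ ≤ 1) (hp : c ≤ p) (hq : c ≤ q) : c ≤ (1 - θ) * p + θ * q := by
  nlinarith [mul_nonneg h0 (sub_nonneg.2 hq), mul_nonneg (sub_nonneg.2 h1) (sub_nonneg.2 hp)]

theorem ab_ge {l u : ℤ} {t : ℝ} (h1 : (l : ℝ) ≤ t) (h2 : t ≤ (u : ℝ)) : |t| ≤ (ab l u : ℤ) := by
  unfold ab
  split_ifs with h
  · have : (-(l : ℝ)) ≤ u := by exact_mod_cast h
    rw [abs_le]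
    constructor <;> linarith
  · push Not at h
    have : (u : ℝ) < -l := by exact_mod_cast h
    push_cast
    rw [abs_le]
    constructor <;> linarith

theorem okk_real {hh kk mm dp dq : ℤ} {n : ℝ} (hn : 0 < n) (h : okk hh kk mm dp dq = true) :
    0 < (hh : ℝ) / (2 * n) ∧ 0 ≤ (mm : ℝ) ∧ ((kk : ℝ) / n) ^ 2 ≤ 12 * (hh / (2 * n)) * (mm / n) ∧
    (∀ u : ℝ, 4 * n * |u| ≤ dp → u ^ 2 ≤ 8 * (hh / (2 * n)) ^ 2) ∧
    (∀ v : ℝ, 4 * n * |v| ≤ dq → 3 * v ^ 2 ≤ 8 * (hh / (2 * n)) ^ 2) := by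
  simp only [okk, Bool.and_eq_true, decide_eq_true_eq] at h
  obtain ⟨h1, h2, h3, h4⟩ := h
  have i1 : (0 : ℝ) < hh := by exact_mod_cast h1
  have i2 : (kk : ℝ) * kk ≤ 6 * (hh * mm) := by exact_mod_cast h2
  have i3 : (dp : ℝ) * dp ≤ 32 * (hh * hh) := by exact_mod_cast h3
  have i4 : 3 * ((dq : ℝ) * dq) ≤ 32 * (hh * hh) := by exact_mod_cast h4
  have hm : 0 ≤ (mm : ℝ) := by
    have : 0 ≤ (hh : ℝ) * mm := by nlinarith [mul_self_nonneg (kk : ℝ)]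
    exact nonneg_of_mul_nonneg_right this i1
  refine ⟨by positivity, hm, ?_, ?_, ?_⟩
  · have e : 12 * ((hh : ℝ) / (2 * n)) * (mm / n) = 6 * (hh * mm) / n ^ 2 := by
      field_simp
      ring
    rw [e, div_pow]
    refine div_le_div_of_nonneg_right ?_ (by positivity)
    nlinarith
  · intro u hu
    have h5 : (4 * n * |u|) ^ 2 ≤ (dp : ℝ) ^ 2 := pow_le_pow_left₀ (by positivity) hu 2
    rw [mul_pow, sq_abs] at h5
    have e : 8 * ((hh : ℝ) / (2 * n)) ^ 2 = 2 * hh ^ 2 / n ^ 2 := by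
      field_simp
      ring
    rw [e, le_div_iff₀ (by positivity)]
    nlinarith
  · intro v hv
    have h5 : (4 * n * |v|) ^ 2 ≤ (dq : ℝ) ^ 2 := pow_le_pow_left₀ (by positivity) hv 2
    rw [mul_pow, sq_abs] at h5
    have e : 8 * ((hh : ℝ) / (2 * n)) ^ 2 = 2 * hh ^ 2 / n ^ 2 := by
      field_simp
      ring
    rw [e, le_div_iff₀ (by positivity)]
    nlinarith

theorem tri3 (n b g a : ℝ) (hn : 0 < n) {B G A : ℝ} (hb : |n * b| ≤ B) (hg : |n * g| ≤ G) (ha : |n * a| ≤ A)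
    (p q r : ℝ) {P Q R : ℝ} (hp : |p| ≤ P) (hq : |q| ≤ Q) (hr : |r| ≤ R) :
    4 * n * |p * b + q * g + r * a| ≤ 4 * (P * B) + 4 * (Q * G) + 4 * (R * A) := by
  have e : n * |p * b + q * g + r * a| = |p * (n * b) + q * (n * g) + r * (n * a)| := by
    have : p * (n * b) + q * (n * g) + r * (n * a) = n * (p * b + q * g + r * a) := by ring
    rw [this, abs_mul, abs_of_pos hn]
  have h1 : |p * (n * b) + q * (n * g) + r * (n * a)| ≤ |p * (n * b)| + |q * (n * g)| + |r * (n * a)| :=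
    abs_add_three _ _ _
  have k1 : |p * (n * b)| ≤ P * B := by
    rw [abs_mul p (n * b)]
    exact mul_le_mul hp hb (abs_nonneg _) ((abs_nonneg _).trans hp)
  have k2 : |q * (n * g)| ≤ Q * G := by
    rw [abs_mul q (n * g)]
    exact mul_le_mul hq hg (abs_nonneg _) ((abs_nonneg _).trans hq)
  have k3 : |r * (n * a)| ≤ R * A := by
    rw [abs_mul r (n * a)]
    exact mul_le_mul hr ha (abs_nonneg _) ((abs_nonneg _).trans hr)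
  have e2 : 4 * n * |p * b + q * g + r * a| = 4 * (n * |p * b + q * g + r * a|) := by ring
  rw [e2, e]
  linarith

/-- the sum of the four Bregman terms dominates the sum of the minorants -/
theorem Sk_le_RS {N : ℝ} {D : BD} {xc yc x0 y0 b g a d : ℝ}
    (n1 : 0 < nr (1 / 2 + x0) (1 / 2 + y0)) (n2 : 0 < nr (1 / 2 - x0) (1 / 2 - y0))
    (n3 : 0 < nr (-1 / 2 + x0) (1 / 2 + y0)) (n4 : 0 < nr (-1 / 2 - x0) (1 / 2 - y0))
    (p1 : 0 < (D.h1 : ℝ) / (2 * N)) (p2 : 0 < (D.h2 : ℝ) / (2 * N)) (p3 : 0 < (D.h3 : ℝ) / (2 * N))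
    (p4 : 0 < (D.h4 : ℝ) / (2 * N))
    (k1 : ((D.k1 : ℝ) / N) ^ 2 ≤ 12 * (D.h1 / (2 * N)) * (D.m1 / N))
    (k2 : ((D.k2 : ℝ) / N) ^ 2 ≤ 12 * (D.h2 / (2 * N)) * (D.m2 / N))
    (k3 : ((D.k3 : ℝ) / N) ^ 2 ≤ 12 * (D.h3 / (2 * N)) * (D.m3 / N))
    (k4 : ((D.k4 : ℝ) / N) ^ 2 ≤ 12 * (D.h4 / (2 * N)) * (D.m4 / N)) :
    Sk N D xc yc x0 y0 b g a d ≤ RS x0 y0 b g (x0 + a) (y0 + d) := by
  have e1 := edge_real (D.k1 / N) (D.m1 / N) (D.h1 / (2 * N)) (1 / 2 + xc) (1 / 2 + yc) (1 / 2 + x0) (1 / 2 + y0)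
    (b / 2 + 3 * g + a) (-b / 2 + g / 4 + d) n1 p1 k1
  have e2 := edge_real (D.k2 / N) (D.m2 / N) (D.h2 / (2 * N)) (1 / 2 - xc) (1 / 2 - yc) (1 / 2 - x0) (1 / 2 - y0)
    (b / 2 + 3 * g - a) (-b / 2 + g / 4 - d) n2 p2 k2
  have e3 := edge_real (D.k3 / N) (D.m3 / N) (D.h3 / (2 * N)) (-1 / 2 + xc) (1 / 2 + yc) (-1 / 2 + x0) (1 / 2 + y0)
    (-b / 2 + 3 * g + a) (-b / 2 - g / 4 + d) n3 p3 k3
  have e4 := edge_real (D.k4 / N) (D.m4 / N) (D.h4 / (2 * N)) (-1 / 2 - xc) (1 / 2 - yc) (-1 / 2 - x0) (1 / 2 - y0)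
    (-b / 2 + 3 * g - a) (-b / 2 - g / 4 - d) n4 p4 k4
  unfold Sk RS
  have f1 : 1 / 2 + b / 2 + 3 * g + (x0 + a) = 1 / 2 + x0 + (b / 2 + 3 * g + a) := by ring
  have f2 : 1 / 2 - b / 2 + g / 4 + (y0 + d) = 1 / 2 + y0 + (-b / 2 + g / 4 + d) := by ring
  have f3 : 1 / 2 + b / 2 + 3 * g - (x0 + a) = 1 / 2 - x0 + (b / 2 + 3 * g - a) := by ring
  have f4 : 1 / 2 - b / 2 + g / 4 - (y0 + d) = 1 / 2 - y0 + (-b / 2 + g / 4 - d) := by ring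
  have f5 : -1 / 2 - b / 2 + 3 * g + (x0 + a) = -1 / 2 + x0 + (-b / 2 + 3 * g + a) := by ring
  have f6 : 1 / 2 - b / 2 - g / 4 + (y0 + d) = 1 / 2 + y0 + (-b / 2 - g / 4 + d) := by ring
  have f7 : -1 / 2 - b / 2 + 3 * g - (x0 + a) = -1 / 2 - x0 + (-b / 2 + 3 * g - a) := by ring
  have f8 : 1 / 2 - b / 2 - g / 4 - (y0 + d) = 1 / 2 - y0 + (-b / 2 - g / 4 - d) := by ring
  rw [f1, f2, f3, f4, f5, f6, f7, f8]
  linarith

/-- the main case: all corners -/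
theorem cors_sound {N F : ℤ} {D : BD} {X0 X1 Y0 Y1 A0 A1 E0 E1 L2 U2 L3 U3 dp dq : ℤ} {x0 y0 b g a d : ℝ}
    (hN : 0 < (N : ℝ)) (hcs : cors N F D X0 X1 Y0 Y1 A0 A1 E0 E1 L2 U2 L3 U3 dp dq = true)
    (hx0 : (X0 : ℝ) ≤ N * x0) (hx1 : N * x0 ≤ X1) (hy0 : (Y0 : ℝ) ≤ N * y0) (hy1 : N * y0 ≤ Y1)
    (b1 : (L2 : ℝ) ≤ N * b) (b2 : N * b ≤ U2) (g1 : (L3 : ℝ) ≤ N * g) (g2 : N * g ≤ U3)
    (a1 : (A0 : ℝ) ≤ N * a) (a2 : N * a ≤ A1) (d1 : (E0 : ℝ) ≤ N * d) (d2 : N * d ≤ E1)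
    (u1 : 4 * (N : ℝ) * |b / 2 + 3 * g + a| ≤ dp) (u2 : 4 * (N : ℝ) * |b / 2 + 3 * g - a| ≤ dp)
    (u3 : 4 * (N : ℝ) * |-b / 2 + 3 * g + a| ≤ dp) (u4 : 4 * (N : ℝ) * |-b / 2 + 3 * g - a| ≤ dp)
    (v1 : 4 * (N : ℝ) * |-b / 2 + g / 4 + d| ≤ dq) (v2 : 4 * (N : ℝ) * |-b / 2 + g / 4 - d| ≤ dq)
    (v3 : 4 * (N : ℝ) * |-b / 2 - g / 4 + d| ≤ dq) (v4 : 4 * (N : ℝ) * |-b / 2 - g / 4 - d| ≤ dq)
    (n1 : 0 < nr (1 / 2 + x0) (1 / 2 + y0)) (n2 : 0 < nr (1 / 2 - x0) (1 / 2 - y0))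
    (n3 : 0 < nr (-1 / 2 + x0) (1 / 2 + y0)) (n4 : 0 < nr (-1 / 2 - x0) (1 / 2 - y0)) :
    3 / 2 * (F / N) * (a ^ 2 + d ^ 2) ≤ RS x0 y0 b g (x0 + a) (y0 + d) := by
  simp only [cors, Bool.and_eq_true] at hcs
  obtain ⟨o1, o2, o3, o4, c1, c2, c3, c4⟩ := hcs
  obtain ⟨o11, o12, o13, o14, o15⟩ := okk_real hN o1
  obtain ⟨o21, o22, o23, o24, o25⟩ := okk_real hN o2
  obtain ⟨o31, o32, o33, o34, o35⟩ := okk_real hN o3
  obtain ⟨o41, o42, o43, o44, o45⟩ := okk_real hN o4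
  have m1 : 0 ≤ (D.m1 : ℝ) / N := div_nonneg o12 hN.le
  have m2 : 0 ≤ (D.m2 : ℝ) / N := div_nonneg o22 hN.le
  have m3 : 0 ≤ (D.m3 : ℝ) / N := div_nonneg o32 hN.le
  have m4 : 0 ≤ (D.m4 : ℝ) / N := div_nonneg o42 hN.le
  have s00 := cor_sound c1 hN o12 o22 o32 o42 b1 b2 g1 g2 a1 a2 d1 d2 u1 u2 u3 u4 v1 v2 v3 v4
  have s01 := cor_sound c2 hN o12 o22 o32 o42 b1 b2 g1 g2 a1 a2 d1 d2 u1 u2 u3 u4 v1 v2 v3 v4
  have s10 := cor_sound c3 hN o12 o22 o32 o42 b1 b2 g1 g2 a1 a2 d1 d2 u1 u2 u3 u4 v1 v2 v3 v4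
  have s11 := cor_sound c4 hN o12 o22 o32 o42 b1 b2 g1 g2 a1 a2 d1 d2 u1 u2 u3 u4 v1 v2 v3 v4
  have hx0' : (X0 : ℝ) / N ≤ x0 := by rw [div_le_iff₀ hN]; linarith
  have hx1' : x0 ≤ (X1 : ℝ) / N := by rw [le_div_iff₀ hN]; linarith
  have hy0' : (Y0 : ℝ) / N ≤ y0 := by rw [div_le_iff₀ hN]; linarith
  have hy1' : y0 ≤ (Y1 : ℝ) / N := by rw [le_div_iff₀ hN]; linarith
  obtain ⟨θ, t0, t1, tx⟩ := conv_par hx0' hx1'
  obtain ⟨φ, p0, p1, py⟩ := conv_par hy0' hy1'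
  generalize (((X0 + X1 : ℤ) : ℝ) / (2 * N)) = xc at s00 s01 s10 s11
  generalize (((Y0 + Y1 : ℤ) : ℝ) / (2 * N)) = yc at s00 s01 s10 s11
  have r0 := Sk_y (a := a) (D := D) (xc := xc) (yc := yc) (x0 := X0 / N) (ya := Y0 / N) (yb := Y1 / N) m1 m2 m3 m4
    (o15 _ v1) (o25 _ v2) (o35 _ v3) (o45 _ v4) p0 p1
  have r1 := Sk_y (a := a) (D := D) (xc := xc) (yc := yc) (x0 := X1 / N) (ya := Y0 / N) (yb := Y1 / N) m1 m2 m3 m4
    (o15 _ v1) (o25 _ v2) (o35 _ v3) (o45 _ v4) p0 p1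
  rw [← py] at r0 r1
  have w0 := (min_conv p0 p1 s00 s01).trans r0
  have w1 := (min_conv p0 p1 s10 s11).trans r1
  have r2 := Sk_x (d := d) (D := D) (xc := xc) (yc := yc) (y0 := y0) (xa := X0 / N) (xb := X1 / N) m1 m2 m3 m4
    (o14 _ u1) (o24 _ u2) (o34 _ u3) (o44 _ u4) t0 t1
  rw [← tx] at r2
  have w2 := (min_conv t0 t1 w0 w1).trans r2
  exact w2.trans (Sk_le_RS n1 n2 n3 n4 o11 o21 o31 o41 o13 o23 o33 o43)

/-- SOUNDNESS of test (B) -/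
theorem leafB_sound (P : Par) (n f p2 p3 lo hi be r0 r1 : ℝ) (hn : 0 < n) (hf : 0 ≤ f)
    (hp2 : 0 < p2) (hp3 : 0 < p3) (eN : (P.N : ℝ) = n) (eF : (P.F : ℝ) = n * f)
    (eP2 : (P.P2 : ℝ) = n * p2) (eP3 : (P.P3 : ℝ) = n * p3) (elo : (P.lo : ℝ) = n * lo)
    (ehi : (P.hi : ℝ) = n * hi) (ebe : (P.be : ℝ) = n * be) (D : BD)
    (X0 X1 Y0 Y1 A0 A1 E0 E1 : ℤ)
    (hl : leafB P.N P.F P.P2 P.P3 P.lo P.hi P.be D X0 X1 Y0 Y1 A0 A1 E0 E1 = true) :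
    Good n f p2 p3 lo hi be r0 r1 X0 X1 Y0 Y1 A0 A1 E0 E1 := by
  intro x0 y0 a d hx0 hx1 hy0 hy1 ha0 ha1 hd0 hd1 px qx py qy _ _ c h hc1 hc2 hh b g hDom
  simp only [leafB, Bool.and_eq_true, decide_eq_true_eq] at hl
  obtain ⟨t2, t3, q2, q3, hcs⟩ := hl
  have T2 : (0 : ℝ) ≤ D.T2 := by exact_mod_cast t2
  have T3 : (0 : ℝ) ≤ D.T3 := by exact_mod_cast t3
  have Aab := ab_ge ha0 ha1
  have Eab := ab_ge hd0 hd1
  have Q2 : 3 * (n * f * (((ab A0 A1 : ℤ) : ℝ) * (ab A0 A1 : ℤ) + ((ab E0 E1 : ℤ) : ℝ) * (ab E0 E1 : ℤ))) ≤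
      2 * (n * p2 * (D.T2 * D.T2)) := by
    rw [← eF, ← eP2]
    exact_mod_cast q2
  have Q3 : n * f * (((ab A0 A1 : ℤ) : ℝ) * (ab A0 A1 : ℤ) + ((ab E0 E1 : ℤ) : ℝ) * (ab E0 E1 : ℤ)) ≤
      2 * (n * p3 * (D.T3 * D.T3)) := by
    rw [← eF, ← eP3]
    exact_mod_cast q3
  -- the size of zeta
  have hS : n ^ 2 * (a ^ 2 + d ^ 2) ≤ ((ab A0 A1 : ℤ) : ℝ) * (ab A0 A1 : ℤ) + ((ab E0 E1 : ℤ) : ℝ) * (ab E0 E1 : ℤ) := by
    have h1 : (n * a) ^ 2 ≤ ((ab A0 A1 : ℤ) : ℝ) ^ 2 := by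
      rw [← sq_abs (n * a)]
      exact pow_le_pow_left₀ (abs_nonneg _) Aab 2
    have h2 : (n * d) ^ 2 ≤ ((ab E0 E1 : ℤ) : ℝ) ^ 2 := by
      rw [← sq_abs (n * d)]
      exact pow_le_pow_left₀ (abs_nonneg _) Eab 2
    nlinarith
  generalize (((ab A0 A1 : ℤ) : ℝ) * (ab A0 A1 : ℤ) + ((ab E0 E1 : ℤ) : ℝ) * (ab E0 E1 : ℤ)) = zz at Q2 Q3 hS
  have n1 : 0 < nr (1 / 2 + x0) (1 / 2 + y0) := nr_pos_right _ _ (by linarith)
  have n2 : 0 < nr (1 / 2 - x0) (1 / 2 - y0) := nr_pos_right _ _ (by linarith)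
  have n3 : 0 < nr (-1 / 2 + x0) (1 / 2 + y0) := nr_pos_right _ _ (by linarith)
  have n4 : 0 < nr (-1 / 2 - x0) (1 / 2 - y0) := nr_pos_right _ _ (by linarith)
  have hRS : 0 ≤ RS x0 y0 b g (x0 + a) (y0 + d) := by
    unfold RS
    have := rk_nonneg _ _ (1 / 2 + b / 2 + 3 * g + (x0 + a)) (1 / 2 - b / 2 + g / 4 + (y0 + d)) n1
    have := rk_nonneg _ _ (1 / 2 + b / 2 + 3 * g - (x0 + a)) (1 / 2 - b / 2 + g / 4 - (y0 + d)) n2
    have := rk_nonneg _ _ (-1 / 2 - b / 2 + 3 * g + (x0 + a)) (1 / 2 - b / 2 - g / 4 + (y0 + d)) n3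
    have := rk_nonneg _ _ (-1 / 2 - b / 2 + 3 * g - (x0 + a)) (1 / 2 - b / 2 - g / 4 - (y0 + d)) n4
    linarith
  have hS' : 3 * (f * (n ^ 2 * (a ^ 2 + d ^ 2))) ≤ 3 * (f * zz) := by
    have := mul_le_mul_of_nonneg_left hS hf
    linarith
  have hpb : 0 ≤ p2 * (b - c) ^ 2 := by positivity
  have hpg : 0 ≤ 3 * p3 * (g - h) ^ 2 := by positivity
  have hgoal : 3 / 2 * f * (a ^ 2 + d ^ 2) ≤
      RS x0 y0 b g (x0 + a) (y0 + d) + p2 * (b - c) ^ 2 + 3 * p3 * (g - h) ^ 2 := by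
    by_cases hb : n * |b - c| ≤ D.T2
    · by_cases hg : n * |g - h| ≤ D.T3
      · -- the main case
        have jb : |n * (b - c)| ≤ D.T2 := by rw [abs_mul, abs_of_pos hn]; exact hb
        have jg : |n * (g - h)| ≤ D.T3 := by rw [abs_mul, abs_of_pos hn]; exact hg
        rw [abs_le] at jb jg
        have jh := abs_le.1 hh
        have lc : n * lo ≤ n * c := mul_le_mul_of_nonneg_left hc1 hn.le
        have hc : n * c ≤ n * hi := mul_le_mul_of_nonneg_left hc2 hn.le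
        have lh : n * h ≤ n * be := mul_le_mul_of_nonneg_left jh.2 hn.le
        have lh' : -(n * be) ≤ n * h := by
          have := mul_le_mul_of_nonneg_left jh.1 hn.le
          linarith
        have B1 : ((P.lo - D.T2 : ℤ) : ℝ) ≤ P.N * b := by
          push_cast
          rw [elo, eN]
          linarith [jb.1]
        have B2 : (P.N : ℝ) * b ≤ ((P.hi + D.T2 : ℤ) : ℝ) := by
          push_cast
          rw [ehi, eN]
          linarith [jb.2]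
        have G1 : ((-(P.be + D.T3) : ℤ) : ℝ) ≤ P.N * g := by
          push_cast
          rw [ebe, eN]
          linarith [jg.1]
        have G2 : (P.N : ℝ) * g ≤ ((P.be + D.T3 : ℤ) : ℝ) := by
          push_cast
          rw [ebe, eN]
          linarith [jg.2]
        have Bab := ab_ge B1 B2
        have Gab : |(P.N : ℝ) * g| ≤ ((P.be + D.T3 : ℤ) : ℝ) := by
          rw [abs_le]
          refine ⟨?_, G2⟩
          have := G1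
          push_cast at this ⊢
          linarith
        rw [← eN] at Aab Eab hx0 hx1 hy0 hy1 ha0 ha1 hd0 hd1 hn
        generalize hdp : (2 * ab (P.lo - D.T2) (P.hi + D.T2) + 12 * (P.be + D.T3) + 4 * ab A0 A1 : ℤ) = dp at hcs
        generalize hdq : (2 * ab (P.lo - D.T2) (P.hi + D.T2) + (P.be + D.T3) + 4 * ab E0 E1 : ℤ) = dq at hcs
        have hdp' : 2 * ((ab (P.lo - D.T2) (P.hi + D.T2) : ℤ) : ℝ) + 12 * ((P.be + D.T3 : ℤ) : ℝ) +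
            4 * ((ab A0 A1 : ℤ) : ℝ) = dp := by exact_mod_cast congrArg (Int.cast (R := ℝ)) hdp
        have hdq' : 2 * ((ab (P.lo - D.T2) (P.hi + D.T2) : ℤ) : ℝ) + ((P.be + D.T3 : ℤ) : ℝ) +
            4 * ((ab E0 E1 : ℤ) : ℝ) = dq := by exact_mod_cast congrArg (Int.cast (R := ℝ)) hdq
        have ho : |(1 : ℝ) / 2| ≤ 1 / 2 := by rw [abs_of_nonneg] <;> norm_num
        have ho' : |(-1 : ℝ) / 2| ≤ 1 / 2 := by rw [abs_le]; constructor <;> norm_num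
        have h3 : |(3 : ℝ)| ≤ 3 := by rw [abs_of_nonneg]; norm_num
        have h1 : |(1 : ℝ)| ≤ 1 := by rw [abs_of_nonneg]; norm_num
        have h1' : |(-1 : ℝ)| ≤ 1 := by rw [abs_le]; constructor <;> norm_num
        have h4 : |(1 : ℝ) / 4| ≤ 1 / 4 := by rw [abs_of_nonneg] <;> norm_num
        have h4' : |(-1 : ℝ) / 4| ≤ 1 / 4 := by rw [abs_le]; constructor <;> norm_num
        have key := cors_sound (b := b) (g := g) (a := a) (d := d) hn hcs hx0 hx1 hy0 hy1 B1 B2 G1 G2 ha0 ha1 hd0 hd1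
          (by
            have := tri3 P.N b g a hn Bab Gab Aab (1 / 2) 3 1 ho h3 h1
            have e : b / 2 + 3 * g + a = 1 / 2 * b + 3 * g + 1 * a := by ring
            rw [e, ← hdp']
            linarith)
          (by
            have := tri3 P.N b g a hn Bab Gab Aab (1 / 2) 3 (-1) ho h3 h1'
            have e : b / 2 + 3 * g - a = 1 / 2 * b + 3 * g + (-1) * a := by ring
            rw [e, ← hdp']
            linarith)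
          (by
            have := tri3 P.N b g a hn Bab Gab Aab (-1 / 2) 3 1 ho' h3 h1
            have e : -b / 2 + 3 * g + a = -1 / 2 * b + 3 * g + 1 * a := by ring
            rw [e, ← hdp']
            linarith)
          (by
            have := tri3 P.N b g a hn Bab Gab Aab (-1 / 2) 3 (-1) ho' h3 h1'
            have e : -b / 2 + 3 * g - a = -1 / 2 * b + 3 * g + (-1) * a := by ring
            rw [e, ← hdp']
            linarith)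
          (by
            have := tri3 P.N b g d hn Bab Gab Eab (-1 / 2) (1 / 4) 1 ho' h4 h1
            have e : -b / 2 + g / 4 + d = -1 / 2 * b + 1 / 4 * g + 1 * d := by ring
            rw [e, ← hdq']
            linarith)
          (by
            have := tri3 P.N b g d hn Bab Gab Eab (-1 / 2) (1 / 4) (-1) ho' h4 h1'
            have e : -b / 2 + g / 4 - d = -1 / 2 * b + 1 / 4 * g + (-1) * d := by ring
            rw [e, ← hdq']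
            linarith)
          (by
            have := tri3 P.N b g d hn Bab Gab Eab (-1 / 2) (-1 / 4) 1 ho' h4' h1
            have e : -b / 2 - g / 4 + d = -1 / 2 * b + -1 / 4 * g + 1 * d := by ring
            rw [e, ← hdq']
            linarith)
          (by
            have := tri3 P.N b g d hn Bab Gab Eab (-1 / 2) (-1 / 4) (-1) ho' h4' h1'
            have e : -b / 2 - g / 4 - d = -1 / 2 * b + -1 / 4 * g + (-1) * d := by ring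
            rw [e, ← hdq']
            linarith)
          n1 n2 n3 n4
        have eF' : (P.F : ℝ) / P.N = f := by
          rw [eF, ← eN]
          field_simp
        rw [eF'] at key
        linarith
      · push Not at hg
        have h1 : (D.T3 : ℝ) * D.T3 ≤ n ^ 2 * (g - h) ^ 2 := by
          have := mul_le_mul hg.le hg.le T3 (by positivity : 0 ≤ n * |g - h|)
          have e : n * |g - h| * (n * |g - h|) = n ^ 2 * (g - h) ^ 2 := by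
            rw [← sq_abs (g - h)]
            ring
          rw [e] at this
          exact this
        have h2 : f * zz ≤ 2 * (p3 * (D.T3 * D.T3)) := by
          have : n * (f * zz) ≤ n * (2 * (p3 * (D.T3 * D.T3))) := by linarith
          exact le_of_mul_le_mul_left this hn
        have h3 : p3 * (D.T3 * D.T3) ≤ p3 * (n ^ 2 * (g - h) ^ 2) := mul_le_mul_of_nonneg_left h1 hp3.le
        have h4 : n ^ 2 * (3 / 2 * f * (a ^ 2 + d ^ 2)) ≤ n ^ 2 * (3 * p3 * (g - h) ^ 2) := by linarith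
        have h5 := le_of_mul_le_mul_left h4 (by positivity)
        linarith
    · push Not at hb
      have h1 : (D.T2 : ℝ) * D.T2 ≤ n ^ 2 * (b - c) ^ 2 := by
        have := mul_le_mul hb.le hb.le T2 (by positivity : 0 ≤ n * |b - c|)
        have e : n * |b - c| * (n * |b - c|) = n ^ 2 * (b - c) ^ 2 := by
          rw [← sq_abs (b - c)]
          ring
        rw [e] at this
        exact this
      have h2 : 3 * (f * zz) ≤ 2 * (p2 * (D.T2 * D.T2)) := by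
        have : n * (3 * (f * zz)) ≤ n * (2 * (p2 * (D.T2 * D.T2))) := by linarith
        exact le_of_mul_le_mul_left this hn
      have h3 : p2 * (D.T2 * D.T2) ≤ p2 * (n ^ 2 * (b - c) ^ 2) := mul_le_mul_of_nonneg_left h1 hp2.le
      have h4 : n ^ 2 * (3 / 2 * f * (a ^ 2 + d ^ 2)) ≤ n ^ 2 * (p2 * (b - c) ^ 2) := by linarith
      have h5 := le_of_mul_le_mul_left h4 (by positivity)
      linarith
  unfold Ineq
  have e1 : x0 + a - x0 = a := by ring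
  have e2 : y0 + d - y0 = d := by ring
  rw [e1, e2]
  exact hgoal

end Pool.Agent.Helper48.TB
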