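import Pool.Agent.Helper48.SH.TB2
import Pool.Agent.Helper25.SH.Leaf

/-!
# SHARP (MP_b21509_co), link (4): test (B) with natural numbers, for the kernel

Scale `N = 2^20`.  Off-diagonal entries are differences `p - n` of natural numbers.
-/

set_option autoImplicit false

namespace Pool.Agent.Helper48.TBN

open Pool.Agent.Helper88.P4 Pool.Agent.Helper25.SH Pool.Agent.Helper48.TB

/-! ### positive semidefinite matrices -/

def ps2 (a bp bn c : ℕ) : Bool :=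
  bif Nat.ble 1 a then Nat.ble (sqr (dif bp bn)) (Nat.mul a c) else false

def ps3b (b2 c2 ad af ep en : ℕ) : Bool :=
  bif Nat.ble b2 ad then bif Nat.ble c2 af then ps2 (Nat.sub ad b2) ep en (Nat.sub af c2)
  else false else false

def ps3 (a bp bn cp cn d ep en f : ℕ) : Bool :=
  bif Nat.ble 1 a then
    ps3b (sqr (dif bp bn)) (sqr (dif cp cn)) (Nat.mul a d) (Nat.mul a f)
      (Nat.add (Nat.mul a ep) (Nat.add (Nat.mul bp cn) (Nat.mul bn cp)))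
      (Nat.add (Nat.mul a en) (Nat.add (Nat.mul bp cp) (Nat.mul bn cn)))
  else false

def ps4b (b2 c2 d2 ab ac ad xp xn yp yn zp zn : ℕ) : Bool :=
  bif Nat.ble b2 ab then bif Nat.ble c2 ac then bif Nat.ble d2 ad then
    ps3 (Nat.sub ab b2) xp xn yp yn (Nat.sub ac c2) zp zn (Nat.sub ad d2)
  else false else false else false

/-- matrix `a00; a01 = bp - bn; a02 = cp - cn; a03 = dp - dn; a11 = e; a12 = fp - fn; a13 = gp - gn; a22 = h; a23 = ip - i_n; a33 = j` -/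
def ps4 (a bp bn cp cn dp dn e fp fn gp gn h ip iq j : ℕ) : Bool :=
  bif Nat.ble 1 a then
    ps4b (sqr (dif bp bn)) (sqr (dif cp cn)) (sqr (dif dp dn)) (Nat.mul a e) (Nat.mul a h) (Nat.mul a j)
      (Nat.add (Nat.mul a fp) (Nat.add (Nat.mul bp cn) (Nat.mul bn cp)))
      (Nat.add (Nat.mul a fn) (Nat.add (Nat.mul bp cp) (Nat.mul bn cn)))
      (Nat.add (Nat.mul a gp) (Nat.add (Nat.mul bp dn) (Nat.mul bn dp)))
      (Nat.add (Nat.mul a gn) (Nat.add (Nat.mul bp dp) (Nat.mul bn dn)))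
      (Nat.add (Nat.mul a ip) (Nat.add (Nat.mul cp dn) (Nat.mul cn dp)))
      (Nat.add (Nat.mul a iq) (Nat.add (Nat.mul cp dp) (Nat.mul cn dn)))
  else false

theorem ble_cast {a b : ℕ} (h : Nat.ble a b = true) : (a : ℝ) ≤ b := Nat.cast_le.2 (Nat.le_of_ble_eq_true h)

theorem dif_sq (p n : ℕ) : ((sqr (dif p n) : ℕ) : ℝ) = ((p : ℝ) - n) ^ 2 := by
  have h := dif_cast_sq p n
  have h2 : ((sqr (dif p n) : ℕ) : ℤ) = ((p : ℤ) - n) * (p - n) := by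
    rw [sqr_eq]
    push_cast
    exact h
  have h3 : (((sqr (dif p n) : ℕ) : ℤ) : ℝ) = ((((p : ℤ) - n) * (p - n) : ℤ) : ℝ) := by rw [h2]
  push_cast at h3
  rw [h3]
  ring

theorem sub_cast' {a b : ℕ} (h : Nat.ble b a = true) : ((Nat.sub a b : ℕ) : ℝ) = (a : ℝ) - b :=
  Nat.cast_sub (Nat.le_of_ble_eq_true h)

theorem ps2_sound {a bp bn c : ℕ} (h : ps2 a bp bn c = true) (x y : ℝ) :
    0 ≤ (a : ℝ) * x ^ 2 + 2 * ((bp : ℝ) - bn) * x * y + c * y ^ 2 := by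
  simp only [ps2, bif_and] at h
  have h1 := ble_cast h.1
  have h2 := ble_cast h.2
  rw [dif_sq] at h2
  simp only [Nat.mul_eq, Nat.cast_mul] at h2
  exact psd2_real (by push_cast at h1; linarith) (by nlinarith)

theorem step2 {a : ℝ} (ha : 1 ≤ a) {b c d e f x y z : ℝ}
    (h : 0 ≤ (a * d - b ^ 2) * y ^ 2 + 2 * (a * e - b * c) * y * z + (a * f - c ^ 2) * z ^ 2) :
    0 ≤ a * x ^ 2 + 2 * b * x * y + 2 * c * x * z + d * y ^ 2 + 2 * e * y * z + f * z ^ 2 := by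
  have h3 : 0 ≤ a * (a * x ^ 2 + 2 * b * x * y + 2 * c * x * z + d * y ^ 2 + 2 * e * y * z + f * z ^ 2) := by
    have e1 : a * (a * x ^ 2 + 2 * b * x * y + 2 * c * x * z + d * y ^ 2 + 2 * e * y * z + f * z ^ 2) =
        (a * x + b * y + c * z) ^ 2 +
          ((a * d - b ^ 2) * y ^ 2 + 2 * (a * e - b * c) * y * z + (a * f - c ^ 2) * z ^ 2) := by
      ring
    rw [e1]
    have := sq_nonneg (a * x + b * y + c * z)
    linarith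
  exact nonneg_of_mul_nonneg_right h3 (by linarith)

theorem ps3_sound {a bp bn cp cn d ep en f : ℕ} (h : ps3 a bp bn cp cn d ep en f = true) (x y z : ℝ) :
    0 ≤ (a : ℝ) * x ^ 2 + 2 * ((bp : ℝ) - bn) * x * y + 2 * ((cp : ℝ) - cn) * x * z + d * y ^ 2 +
      2 * ((ep : ℝ) - en) * y * z + f * z ^ 2 := by
  simp only [ps3, ps3b, bif_and] at h
  obtain ⟨h1, h2, h3, h4⟩ := h
  have k1 := ble_cast h1
  have k4 := ps2_sound h4 y z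
  rw [sub_cast' h2, sub_cast' h3, dif_sq, dif_sq] at k4
  simp only [Nat.mul_eq, Nat.add_eq, Nat.cast_mul, Nat.cast_add] at k4
  refine step2 (by push_cast at k1; exact k1) ?_
  refine le_trans k4 (le_of_eq ?_)
  ring

theorem step3 {a : ℝ} (ha : 1 ≤ a) {b c d e f g h i j x y z w : ℝ}
    (H : 0 ≤ (a * e - b ^ 2) * y ^ 2 + 2 * (a * f - b * c) * y * z + 2 * (a * g - b * d) * y * w +
      (a * h - c ^ 2) * z ^ 2 + 2 * (a * i - c * d) * z * w + (a * j - d ^ 2) * w ^ 2) :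
    0 ≤ a * x ^ 2 + 2 * b * x * y + 2 * c * x * z + 2 * d * x * w + e * y ^ 2 + 2 * f * y * z + 2 * g * y * w +
      h * z ^ 2 + 2 * i * z * w + j * w ^ 2 := by
  have h3 : 0 ≤ a * (a * x ^ 2 + 2 * b * x * y + 2 * c * x * z + 2 * d * x * w + e * y ^ 2 + 2 * f * y * z +
      2 * g * y * w + h * z ^ 2 + 2 * i * z * w + j * w ^ 2) := by
    have e1 : a * (a * x ^ 2 + 2 * b * x * y + 2 * c * x * z + 2 * d * x * w + e * y ^ 2 + 2 * f * y * z +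
      2 * g * y * w + h * z ^ 2 + 2 * i * z * w + j * w ^ 2) =
        (a * x + b * y + c * z + d * w) ^ 2 + ((a * e - b ^ 2) * y ^ 2 + 2 * (a * f - b * c) * y * z +
          2 * (a * g - b * d) * y * w + (a * h - c ^ 2) * z ^ 2 + 2 * (a * i - c * d) * z * w +
          (a * j - d ^ 2) * w ^ 2) := by
      ring
    rw [e1]
    have := sq_nonneg (a * x + b * y + c * z + d * w)
    linarith
  exact nonneg_of_mul_nonneg_right h3 (by linarith)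

theorem ps4_sound {a bp bn cp cn dp dn e fp fn gp gn h ip iq j : ℕ}
    (H : ps4 a bp bn cp cn dp dn e fp fn gp gn h ip iq j = true) (x y z w : ℝ) :
    0 ≤ (a : ℝ) * x ^ 2 + 2 * ((bp : ℝ) - bn) * x * y + 2 * ((cp : ℝ) - cn) * x * z +
      2 * ((dp : ℝ) - dn) * x * w + e * y ^ 2 + 2 * ((fp : ℝ) - fn) * y * z + 2 * ((gp : ℝ) - gn) * y * w +
      h * z ^ 2 + 2 * ((ip : ℝ) - iq) * z * w + j * w ^ 2 := by
  simp only [ps4, ps4b, bif_and] at H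
  obtain ⟨h1, h2, h3, h4, h5⟩ := H
  have k1 := ble_cast h1
  have k5 := ps3_sound h5 y z w
  rw [sub_cast' h2, sub_cast' h3, sub_cast' h4, dif_sq, dif_sq, dif_sq] at k5
  simp only [Nat.mul_eq, Nat.add_eq, Nat.cast_mul, Nat.cast_add] at k5
  refine step3 (by push_cast at k1; exact k1) ?_
  refine le_trans k5 (le_of_eq ?_)
  ring

/-! ### the corner matrix -/

def od (s r s' r' : ℕ) : ℕ := Nat.add (Nat.mul s r') (Nat.mul r s')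

def dg (s r : ℕ) : ℕ := Nat.mul 2 (Nat.mul s r)

def a4 (a b c d : ℕ) : ℕ := Nat.add (Nat.add a b) (Nat.add c d)

/-- `t ≤ m22`, `t' ≤ m33` and positive semidefinite -/
def cm (t t' m00 p01 n01 p02 n02 p03 n03 m11 p12 n12 p13 n13 m22 p23 n23 m33 : ℕ) : Bool :=
  bif Nat.ble t m22 then bif Nat.ble t' m33 then
    ps4 m00 p01 n01 p02 n02 p03 n03 m11 p12 n12 p13 n13 (Nat.sub m22 t) p23 n23 (Nat.sub m33 t')
  else false else false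

/-- `s = T` at the centre, `r` as in the real proof; four edges; for the edges 2 and 3 the last `r` is `r3' - q`, `v3 - z` -/
def cnr (t s0 s1 s2 s3 r0 r1 r2 r3 s0' s1' s2' s3' r0' r1' r2' r3' q u0 u1 u2 u3 v0 v1 v2 v3 z
    u0' u1' u2' u3' v0' v1' v2' v3' : ℕ) : Bool :=
  cm t (Nat.add t (Nat.add (dg s3' q) (dg u3 z))) (a4 (dg s0 r0) (dg s0' r0') (dg u0 v0) (dg u0' v0'))
    (Nat.add (od s0 r0 s1 r1) (od s0' r0' s1' r1')) (Nat.add (od u0 v0 u1 v1) (od u0' v0' u1' v1'))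
    (Nat.add (od s0 r0 s2 r2) (od u0' v0' u2' v2')) (Nat.add (od s0' r0' s2' r2') (od u0 v0 u2 v2))
    (Nat.add (od s0' r0' s3' r3') (Nat.add (od u0' v0' u3' v3') (Nat.mul u0 z)))
    (Nat.add (od s0 r0 s3 r3) (Nat.add (od u0 v0 u3 v3) (Nat.mul s0' q)))
    (a4 (dg s1 r1) (dg s1' r1') (dg u1 v1) (dg u1' v1'))
    (Nat.add (od s1 r1 s2 r2) (od u1 v1 u2 v2)) (Nat.add (od s1' r1' s2' r2') (od u1' v1' u2' v2'))
    (Nat.add (od s1' r1' s3' r3') (od u1 v1 u3 v3))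
    (a4 (od s1 r1 s3 r3) (od u1' v1' u3' v3') (Nat.mul s1' q) (Nat.mul u1 z))
    (a4 (dg s2 r2) (dg s2' r2') (dg u2 v2) (dg u2' v2'))
    (Nat.add (od u2 v2 u3 v3) (Nat.add (od u2' v2' u3' v3') (Nat.mul s2' q)))
    (Nat.add (od s2 r2 s3 r3) (Nat.add (od s2' r2' s3' r3') (Nat.mul u2 z)))
    (a4 (dg s3 r3) (dg s3' r3') (dg u3 v3) (dg u3' v3'))

theorem cnr_sound {t s0 s1 s2 s3 r0 r1 r2 r3 s0' s1' s2' s3' r0' r1' r2' r3' q u0 u1 u2 u3 v0 v1 v2 v3 z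
    u0' u1' u2' u3' v0' v1' v2' v3' : ℕ}
    (H : cnr t s0 s1 s2 s3 r0 r1 r2 r3 s0' s1' s2' s3' r0' r1' r2' r3' q u0 u1 u2 u3 v0 v1 v2 v3 z
      u0' u1' u2' u3' v0' v1' v2' v3' = true) (b g a d : ℝ) :
    (t : ℝ) * (a ^ 2 + d ^ 2) ≤
      2 * (-(s0 : ℝ) * b - s1 * g - s2 * a + s3 * d) * (-(r0 : ℝ) * b - r1 * g - r2 * a + r3 * d) +
      2 * (-(s0' : ℝ) * b - s1' * g + s2' * a - s3' * d) *
        (-(r0' : ℝ) * b - r1' * g + r2' * a - (r3' - q) * d) +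
      2 * ((u0 : ℝ) * b - u1 * g - u2 * a - u3 * d) * ((v0 : ℝ) * b - v1 * g - v2 * a - (v3 - z) * d) +
      2 * ((u0' : ℝ) * b - u1' * g + u2' * a + u3' * d) * ((v0' : ℝ) * b - v1' * g + v2' * a + v3' * d) := by
  simp only [cnr, cm, bif_and] at H
  obtain ⟨h1, h2, h3⟩ := H
  have k := ps4_sound h3 b g a d
  rw [sub_cast' h1, sub_cast' h2] at k
  simp only [od, dg, a4, Nat.mul_eq, Nat.add_eq, Nat.cast_mul, Nat.cast_add, Nat.cast_ofNat] at k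
  rw [← sub_nonneg]
  refine le_trans k (le_of_eq ?_)
  ring

/-! ### one edge -/

/-- upper bound of `64 N⁴ (|D|² + h²) |2 D + δ|²`, `P, Q = 2 N |D|` componentwise, `hh = h²` -/
def wn (P Q hh bp bm b3 ap an ep en dd : ℕ) : ℕ :=
  Nat.mul (Nat.add (Nat.add (Nat.mul P P) (Nat.mul 3 (Nat.mul Q Q))) hh)
    (Nat.sub (Nat.add (Nat.add (Nat.mul 16 (Nat.add (Nat.mul P P) (Nat.mul 3 (Nat.mul Q Q))))
      (Nat.mul 8 (Nat.add (Nat.add (Nat.mul (Nat.sub (Nat.mul 2 P) (Nat.mul 6 Q)) bp)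
        (Nat.mul (Nat.sub (Nat.mul 6 Q) (Nat.mul 2 P)) bm))
        (Nat.add (Nat.mul (Nat.add (Nat.mul 12 P) (Nat.mul 3 Q)) b3)
          (Nat.add (Nat.mul (Nat.mul 4 P) ap) (Nat.mul (Nat.mul 12 Q) ep)))))) dd)
      (Nat.mul 8 (Nat.add (Nat.mul (Nat.mul 4 P) an) (Nat.mul (Nat.mul 12 Q) en))))

theorem sub_ge (x y : ℕ) : (x : ℝ) - y ≤ ((x - y : ℕ) : ℝ) := by
  have h : x ≤ x - y + y := le_tsub_add
  have h2 : (x : ℝ) ≤ ((x - y + y : ℕ) : ℝ) := Nat.cast_le.2 h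
  push_cast at h2
  linarith

theorem lin_b {x y bp bm : ℕ} {t : ℝ} (h1 : t ≤ bp) (h2 : -t ≤ bm) :
    ((x : ℝ) - y) * t ≤ (((x - y) * bp + (y - x) * bm : ℕ) : ℝ) := by
  rcases le_total y x with h | h
  · rw [Nat.sub_eq_zero_of_le h]
    push_cast [Nat.cast_sub h]
    have : (0 : ℝ) ≤ (x : ℝ) - y := by
      have : (y : ℝ) ≤ x := Nat.cast_le.2 h
      linarith
    nlinarith
  · rw [Nat.sub_eq_zero_of_le h]
    push_cast [Nat.cast_sub h]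
    have : (0 : ℝ) ≤ (y : ℝ) - x := by
      have : (x : ℝ) ≤ y := Nat.cast_le.2 h
      linarith
    nlinarith

theorem wn_sound {N : ℝ} (hN : 0 < N) {P Q hh h bp bm b3 ap an ep en dd : ℕ} {σ s b g a d u v p q : ℝ}
    (hσ : σ ^ 2 = 1) (hp : 2 * N * p = σ * P) (hq : 2 * N * q = Q) (hh2 : hh = h * h)
    (hu : u = σ * b / 2 + 3 * g + s * a) (hv : v = -b / 2 + σ * g / 4 + s * d)
    (b1 : N * b ≤ bp) (b2 : -(N * b) ≤ bm) (g1 : σ * (N * g) ≤ b3) (a1 : σ * s * (N * a) ≤ (ap : ℝ) - an)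
    (d1 : s * (N * d) ≤ (ep : ℝ) - en) (hdd : 16 * N ^ 2 * (u ^ 2 + 3 * v ^ 2) ≤ dd) :
    64 * N ^ 4 * ((p ^ 2 + 3 * q ^ 2 + ((h : ℝ) / (2 * N)) ^ 2) * ((2 * p + u) ^ 2 + 3 * (2 * q + v) ^ 2)) ≤
      (wn P Q hh bp bm b3 ap an ep en dd : ℕ) := by
  have hpp : (P : ℝ) ^ 2 = (2 * N * p) ^ 2 := by rw [hp, mul_pow, hσ, one_mul]
  have hqq : (Q : ℝ) ^ 2 = (2 * N * q) ^ 2 := by rw [hq]
  have l1 := lin_b (x := 2 * P) (y := 6 * Q) b1 b2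
  have l2 : σ * (12 * P + 3 * Q) * (N * g) ≤ (12 * P + 3 * Q) * b3 := by
    have := mul_le_mul_of_nonneg_left g1 (by positivity : (0 : ℝ) ≤ 12 * P + 3 * Q)
    linarith
  have l3 : 4 * P * (σ * s * (N * a)) ≤ 4 * P * ((ap : ℝ) - an) :=
    mul_le_mul_of_nonneg_left a1 (by positivity)
  have l4 : 12 * Q * (s * (N * d)) ≤ 12 * Q * ((ep : ℝ) - en) :=
    mul_le_mul_of_nonneg_left d1 (by positivity)
  unfold wn
  simp only [Nat.mul_eq, Nat.add_eq, Nat.sub_eq]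
  rw [Nat.cast_mul]
  have e1 : (((P * P + 3 * (Q * Q)) + hh : ℕ) : ℝ) = 4 * N ^ 2 * (p ^ 2 + 3 * q ^ 2 + ((h : ℝ) / (2 * N)) ^ 2) := by
    have e2 : 4 * N ^ 2 * (p ^ 2 + 3 * q ^ 2 + ((h : ℝ) / (2 * N)) ^ 2) =
        (2 * N * p) ^ 2 + 3 * (2 * N * q) ^ 2 + (h : ℝ) ^ 2 := by
      field_simp
      ring
    rw [e2, ← hpp, ← hqq, hh2]
    push_cast
    ring
  rw [e1]
  have h1 : 0 ≤ 4 * N ^ 2 * (p ^ 2 + 3 * q ^ 2 + ((h : ℝ) / (2 * N)) ^ 2) := by positivity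
  have h2 : 16 * N ^ 2 * ((2 * p + u) ^ 2 + 3 * (2 * q + v) ^ 2) =
      16 * (P ^ 2 + 3 * Q ^ 2) + 8 * (((2 * P : ℝ) - 6 * Q) * (N * b) + σ * (12 * P + 3 * Q) * (N * g) +
        4 * P * (σ * s * (N * a)) + 12 * Q * (s * (N * d))) + 16 * N ^ 2 * (u ^ 2 + 3 * v ^ 2) := by
    have e3 : 16 * N ^ 2 * ((2 * p + u) ^ 2 + 3 * (2 * q + v) ^ 2) =
        16 * ((2 * N * p) ^ 2 + 3 * (2 * N * q) ^ 2) + 32 * N * ((2 * N * p) * u + 3 * ((2 * N * q) * v)) +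
          16 * N ^ 2 * (u ^ 2 + 3 * v ^ 2) := by ring
    rw [e3, ← hpp, ← hqq, hp, hq]
    have e4 : 32 * N * (σ * P * u + 3 * (Q * v)) = 8 * (((2 * P : ℝ) - 6 * Q) * (N * b) +
        σ * (12 * P + 3 * Q) * (N * g) + 4 * P * (σ * s * (N * a)) + 12 * Q * (s * (N * d))) := by
      rw [hu, hv]
      have : 32 * N * (σ * P * (σ * b / 2 + 3 * g + s * a) + 3 * (Q * (-b / 2 + σ * g / 4 + s * d))) =
        16 * N * P * b * σ ^ 2 + 32 * N * (σ * P * (3 * g + s * a) + 3 * (Q * (-b / 2 + σ * g / 4 + s * d))) := by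
        ring
      rw [this, hσ]
      ring
    rw [e4]
  have h3 : 16 * N ^ 2 * ((2 * p + u) ^ 2 + 3 * (2 * q + v) ^ 2) ≤
      (((16 * (P * P + 3 * (Q * Q)) + 8 * ((2 * P - 6 * Q) * bp + (6 * Q - 2 * P) * bm +
        ((12 * P + 3 * Q) * b3 + (4 * P * ap + 12 * Q * ep))) + dd) -
        8 * (4 * P * an + 12 * Q * en) : ℕ) : ℝ) := by
    refine le_trans ?_ (sub_ge _ _)
    rw [h2]
    have l1' : (((2 * P : ℝ) - 6 * Q) * (N * b)) ≤ (((2 * P - 6 * Q) * bp + (6 * Q - 2 * P) * bm : ℕ) : ℝ) := by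
      have := l1
      push_cast at this ⊢
      exact this
    have e5 : ((16 * (P * P + 3 * (Q * Q)) + 8 * ((2 * P - 6 * Q) * bp + (6 * Q - 2 * P) * bm +
        ((12 * P + 3 * Q) * b3 + (4 * P * ap + 12 * Q * ep))) + dd : ℕ) : ℝ) =
        16 * (P ^ 2 + 3 * Q ^ 2) + 8 * ((((2 * P - 6 * Q) * bp + (6 * Q - 2 * P) * bm : ℕ) : ℝ) +
          ((12 * P + 3 * Q) * b3 + (4 * P * ap + 12 * Q * ep))) + dd := by
      push_cast
      ring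
    rw [e5]
    generalize (((2 * P - 6 * Q) * bp + (6 * Q - 2 * P) * bm : ℕ) : ℝ) = L at l1'
    push_cast
    linarith
  calc 64 * N ^ 4 * ((p ^ 2 + 3 * q ^ 2 + ((h : ℝ) / (2 * N)) ^ 2) * ((2 * p + u) ^ 2 + 3 * (2 * q + v) ^ 2))
      = 4 * N ^ 2 * (p ^ 2 + 3 * q ^ 2 + ((h : ℝ) / (2 * N)) ^ 2) *
        (16 * N ^ 2 * ((2 * p + u) ^ 2 + 3 * (2 * q + v) ^ 2)) := by ring
    _ ≤ _ := mul_le_mul_of_nonneg_left h3 h1

theorem ed_real {N kk mm hh WB p q pc qc u v sv tv rv : ℝ} (hN : 0 < N) (hmm : 0 ≤ mm)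
    (hW : 64 * N ^ 4 * ((p ^ 2 + 3 * q ^ 2 + (hh / (2 * N)) ^ 2) * ((2 * p + u) ^ 2 + 3 * (2 * q + v) ^ 2)) ≤ WB)
    (hs : sv = 8 * N * (pc * v - qc * u)) (ht : tv = 8 * N * (p * v - q * u))
    (hr : rv = 128 * N ^ 4 * kk * tv - mm * WB * sv) :
    2 * sv * rv ≤ 8192 * N ^ 7 * Ek (kk / N) (mm / N) (hh / (2 * N)) pc qc p q u v := by
  have e1 : 2 * sv * rv = 16384 * N ^ 6 * kk * (pc * v - qc * u) * (p * v - q * u) -
        128 * N ^ 2 * mm * (pc * v - qc * u) ^ 2 * WB := by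
    rw [hr, hs, ht]
    ring
  rw [e1]
  have e2 : 8192 * N ^ 7 * Ek (kk / N) (mm / N) (hh / (2 * N)) pc qc p q u v =
      16384 * N ^ 6 * kk * (pc * v - qc * u) * (p * v - q * u) -
        128 * N ^ 2 * mm * (pc * v - qc * u) ^ 2 * (64 * N ^ 4 *
          ((p ^ 2 + 3 * q ^ 2 + (hh / (2 * N)) ^ 2) * ((2 * p + u) ^ 2 + 3 * (2 * q + v) ^ 2))) := by
    unfold Ek
    field_simp
    ring
  rw [e2]
  have h3 : 0 ≤ 128 * N ^ 2 * mm * (pc * v - qc * u) ^ 2 := by positivity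
  have h4 := mul_le_mul_of_nonneg_left hW h3
  linarith

/-! ### a corner -/

def rr (kN w T S : ℕ) : ℕ := Nat.sub (Nat.mul kN T) (Nat.mul w S)

def rb (kN w T S : ℕ) : Bool := Nat.ble (Nat.mul w S) (Nat.mul kN T)

def f0 (P Q : ℕ) : ℕ := Nat.mul 2 (Nat.add P Q)

def f1 (P Q : ℕ) : ℕ := Nat.sub (Nat.mul 12 Q) P

def ck4 (kN w P Q s0 s1 s2 s3 : ℕ) : Bool :=
  bif rb kN w (f0 P Q) s0 then bif rb kN w (f1 P Q) s1 then bif rb kN w (Nat.mul 4 Q) s2 then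
    rb kN w (Nat.mul 4 P) s3 else false else false else false

def ck3 (kN w P Q s0 s1 s2 : ℕ) : Bool :=
  bif rb kN w (f0 P Q) s0 then bif rb kN w (f1 P Q) s1 then rb kN w (Nat.mul 4 Q) s2 else false else false

/-- the corner test; edges `(Xp, Yp), (Xm, Ym), (Xm, Yp), (Xp, Ym)` -/
def cn (t k1 k2 k3 k4 w1 w2 w3 w4 s0 s1 s2 s3 s0' s1' s2' s3' u0 u1 u2 u3 u0' u1' u2' u3'
    Xp Xm Yp Ym : ℕ) : Bool :=
  bif ck4 k1 w1 Xp Yp s0 s1 s2 s3 then bif ck3 k2 w2 Xm Ym s0' s1' s2' then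
  bif ck3 k3 w3 Xm Yp u0 u1 u2 then bif ck4 k4 w4 Xp Ym u0' u1' u2' u3' then
    cnr t s0 s1 s2 s3 (rr k1 w1 (f0 Xp Yp) s0) (rr k1 w1 (f1 Xp Yp) s1) (rr k1 w1 (Nat.mul 4 Yp) s2)
      (rr k1 w1 (Nat.mul 4 Xp) s3)
      s0' s1' s2' s3' (rr k2 w2 (f0 Xm Ym) s0') (rr k2 w2 (f1 Xm Ym) s1') (rr k2 w2 (Nat.mul 4 Ym) s2')
      (Nat.mul k2 (Nat.mul 4 Xm)) (Nat.mul w2 s3')
      u0 u1 u2 u3 (rr k3 w3 (f0 Xm Yp) u0) (rr k3 w3 (f1 Xm Yp) u1) (rr k3 w3 (Nat.mul 4 Yp) u2)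
      (Nat.mul k3 (Nat.mul 4 Xm)) (Nat.mul w3 u3)
      u0' u1' u2' u3' (rr k4 w4 (f0 Xp Ym) u0') (rr k4 w4 (f1 Xp Ym) u1') (rr k4 w4 (Nat.mul 4 Ym) u2')
      (rr k4 w4 (Nat.mul 4 Xp) u3')
  else false else false else false else false

/-- the same with the bounds `w` computed; `g = h²`; `OA = 3145728`, `OE = 1572864` -/
def cw (t k1 k2 k3 k4 m1 m2 m3 m4 g1 g2 g3 g4 bp bm b3 a0 a1 e0 e1 dd s0 s1 s2 s3 s0' s1' s2' s3' u0 u1 u2 u3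
    u0' u1' u2' u3' Xp Xm Yp Ym : ℕ) : Bool :=
  cn t k1 k2 k3 k4 (Nat.mul m1 (wn Xp Yp g1 bp bm b3 a1 3145728 e1 1572864 dd))
    (Nat.mul m2 (wn Xm Ym g2 bp bm b3 3145728 a0 1572864 e0 dd))
    (Nat.mul m3 (wn Xm Yp g3 bp bm b3 3145728 a0 e1 1572864 dd))
    (Nat.mul m4 (wn Xp Ym g4 bp bm b3 a1 3145728 1572864 e0 dd))
    s0 s1 s2 s3 s0' s1' s2' s3' u0 u1 u2 u3 u0' u1' u2' u3' Xp Xm Yp Ym

/-- with the centre `Cp, Cm, Dp, Dm` -/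
def cc (t k1 k2 k3 k4 m1 m2 m3 m4 g1 g2 g3 g4 bp bm b3 a0 a1 e0 e1 dd Cp Cm Dp Dm Xp Xm Yp Ym : ℕ) : Bool :=
  cw t k1 k2 k3 k4 m1 m2 m3 m4 g1 g2 g3 g4 bp bm b3 a0 a1 e0 e1 dd
    (f0 Cp Dp) (f1 Cp Dp) (Nat.mul 4 Dp) (Nat.mul 4 Cp) (f0 Cm Dm) (f1 Cm Dm) (Nat.mul 4 Dm) (Nat.mul 4 Cm)
    (f0 Cm Dp) (f1 Cm Dp) (Nat.mul 4 Dp) (Nat.mul 4 Cm) (f0 Cp Dm) (f1 Cp Dm) (Nat.mul 4 Dm) (Nat.mul 4 Cp)
    Xp Xm Yp Ym

theorem rr_cast {kN w T S : ℕ} (h : rb kN w T S = true) :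
    ((rr kN w T S : ℕ) : ℝ) = (kN : ℝ) * T - w * S := by
  unfold rr
  unfold rb at h
  rw [sub_cast' h]
  simp only [Nat.mul_eq, Nat.cast_mul]

theorem f0_cast (P Q : ℕ) : ((f0 P Q : ℕ) : ℝ) = 2 * (P + Q) := by
  simp only [f0, Nat.mul_eq, Nat.add_eq, Nat.cast_mul, Nat.cast_add, Nat.cast_ofNat]

theorem f1_cast {P Q : ℕ} (h : P ≤ 12 * Q) : ((f1 P Q : ℕ) : ℝ) = 12 * Q - P := by
  simp only [f1, Nat.mul_eq, Nat.sub_eq]
  rw [Nat.cast_sub h]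
  push_cast
  ring

theorem four_cast (P : ℕ) : ((Nat.mul 4 P : ℕ) : ℝ) = 4 * P := by
  simp only [Nat.mul_eq, Nat.cast_mul, Nat.cast_ofNat]

theorem rr4_cast {kN w P Q C D : ℕ} (h : ck4 kN w P Q (f0 C D) (f1 C D) (Nat.mul 4 D) (Nat.mul 4 C) = true)
    (h1 : P ≤ 12 * Q) (h2 : C ≤ 12 * D) :
    ((rr kN w (f0 P Q) (f0 C D) : ℕ) : ℝ) = kN * (2 * (P + Q)) - w * (2 * (C + D)) ∧
    ((rr kN w (f1 P Q) (f1 C D) : ℕ) : ℝ) = kN * (12 * Q - P) - w * (12 * D - C) ∧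
    ((rr kN w (Nat.mul 4 Q) (Nat.mul 4 D) : ℕ) : ℝ) = kN * (4 * Q) - w * (4 * D) ∧
    ((rr kN w (Nat.mul 4 P) (Nat.mul 4 C) : ℕ) : ℝ) = kN * (4 * P) - w * (4 * C) := by
  simp only [ck4, bif_and] at h
  obtain ⟨c1, c2, c3, c4⟩ := h
  refine ⟨?_, ?_, ?_, ?_⟩
  · rw [rr_cast c1, f0_cast, f0_cast]
  · rw [rr_cast c2, f1_cast h1, f1_cast h2]
  · rw [rr_cast c3, four_cast, four_cast]
  · rw [rr_cast c4, four_cast, four_cast]

theorem rr3_cast {kN w P Q C D : ℕ} (h : ck3 kN w P Q (f0 C D) (f1 C D) (Nat.mul 4 D) = true)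
    (h1 : P ≤ 12 * Q) (h2 : C ≤ 12 * D) :
    ((rr kN w (f0 P Q) (f0 C D) : ℕ) : ℝ) = kN * (2 * (P + Q)) - w * (2 * (C + D)) ∧
    ((rr kN w (f1 P Q) (f1 C D) : ℕ) : ℝ) = kN * (12 * Q - P) - w * (12 * D - C) ∧
    ((rr kN w (Nat.mul 4 Q) (Nat.mul 4 D) : ℕ) : ℝ) = kN * (4 * Q) - w * (4 * D) := by
  simp only [ck3, bif_and] at h
  obtain ⟨c1, c2, c3⟩ := h
  refine ⟨?_, ?_, ?_⟩
  · rw [rr_cast c1, f0_cast, f0_cast]
  · rw [rr_cast c2, f1_cast h1, f1_cast h2]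
  · rw [rr_cast c3, four_cast, four_cast]

theorem cc_sound {F k1 k2 k3 k4 m1 m2 m3 m4 h1 h2 h3 h4 bp bm b3 a0 a1 e0 e1 dd Cp Cm Dp Dm Xp Xm Yp Ym : ℕ}
    (H : cc (Nat.mul 16333553612205046246241981156724874149888 F) (Nat.mul 154742504910672534362390528 k1)
      (Nat.mul 154742504910672534362390528 k2) (Nat.mul 154742504910672534362390528 k3)
      (Nat.mul 154742504910672534362390528 k4) m1 m2 m3 m4 (Nat.mul h1 h1) (Nat.mul h2 h2) (Nat.mul h3 h3)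
      (Nat.mul h4 h4) bp bm b3 a0 a1 e0 e1 dd Cp Cm Dp Dm Xp Xm Yp Ym = true)
    (y1 : Xp ≤ 12 * Ym) (y2 : Cp ≤ 12 * Dm) (y3 : Xm ≤ 12 * Ym) (y4 : Cm ≤ 12 * Dm) (y5 : Ym ≤ Yp)
    (y6 : Dm ≤ Dp) {x y xc yc b g a d : ℝ} (hXp : (Xp : ℝ) = 2 * 1048576 * (1 / 2 + x))
    (hXm : (Xm : ℝ) = 2 * 1048576 * (1 / 2 - x)) (hYp : (Yp : ℝ) = 2 * 1048576 * (1 / 2 + y))
    (hYm : (Ym : ℝ) = 2 * 1048576 * (1 / 2 - y)) (hCp : (Cp : ℝ) = 2 * 1048576 * (1 / 2 + xc))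
    (hCm : (Cm : ℝ) = 2 * 1048576 * (1 / 2 - xc)) (hDp : (Dp : ℝ) = 2 * 1048576 * (1 / 2 + yc))
    (hDm : (Dm : ℝ) = 2 * 1048576 * (1 / 2 - yc))
    (B1 : 1048576 * b ≤ bp) (B2 : -(1048576 * b) ≤ bm) (G1 : 1048576 * g ≤ b3) (G2 : -(1048576 * g) ≤ b3)
    (A0 : (a0 : ℝ) - 3145728 ≤ 1048576 * a) (A1 : 1048576 * a ≤ (a1 : ℝ) - 3145728)
    (E0 : (e0 : ℝ) - 1572864 ≤ 1048576 * d) (E1 : 1048576 * d ≤ (e1 : ℝ) - 1572864)
    (dd1 : 16 * (1048576 : ℝ) ^ 2 * ((b / 2 + 3 * g + a) ^ 2 + 3 * (-b / 2 + g / 4 + d) ^ 2) ≤ dd)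
    (dd2 : 16 * (1048576 : ℝ) ^ 2 * ((b / 2 + 3 * g - a) ^ 2 + 3 * (-b / 2 + g / 4 - d) ^ 2) ≤ dd)
    (dd3 : 16 * (1048576 : ℝ) ^ 2 * ((-b / 2 + 3 * g + a) ^ 2 + 3 * (-b / 2 - g / 4 + d) ^ 2) ≤ dd)
    (dd4 : 16 * (1048576 : ℝ) ^ 2 * ((-b / 2 + 3 * g - a) ^ 2 + 3 * (-b / 2 - g / 4 - d) ^ 2) ≤ dd)
    (D : BD) (q1 : D.k1 = k1) (q2 : D.k2 = k2) (q3 : D.k3 = k3) (q4 : D.k4 = k4) (q5 : D.m1 = m1)
    (q6 : D.m2 = m2) (q7 : D.m3 = m3) (q8 : D.m4 = m4) (q9 : D.h1 = h1) (q10 : D.h2 = h2) (q11 : D.h3 = h3)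
    (q12 : D.h4 = h4) :
    3 / 2 * ((F : ℝ) / 1048576) * (a ^ 2 + d ^ 2) ≤ Sk 1048576 D xc yc x y b g a d := by
  have hN : (0 : ℝ) < 1048576 := by norm_num
  simp only [cc, cw, cn, bif_and] at H
  obtain ⟨c1, c2, c3, c4, c5⟩ := H
  have z1 : Xp ≤ 12 * Yp := by omega
  have z2 : Cp ≤ 12 * Dp := by omega
  have z3 : Xm ≤ 12 * Yp := by omega
  have z4 : Cm ≤ 12 * Dp := by omega
  have key := cnr_sound c5 b g a d
  obtain ⟨r11, r12, r13, r14⟩ := rr4_cast c1 z1 z2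
  obtain ⟨r21, r22, r23⟩ := rr3_cast c2 y3 y4
  obtain ⟨r31, r32, r33⟩ := rr3_cast c3 z3 z4
  obtain ⟨r41, r42, r43, r44⟩ := rr4_cast c4 y1 y2
  rw [r11, r12, r13, r14, r21, r22, r23, r31, r32, r33, r41, r42, r43, r44,
    f0_cast, f0_cast, f0_cast, f0_cast, f1_cast z2, f1_cast y4, f1_cast z4, f1_cast y2] at key
  simp only [Nat.mul_eq, Nat.cast_mul, Nat.cast_ofNat] at key
  have w1 := wn_sound (h := h1) (σ := 1) (s := 1) (p := 1 / 2 + x) (q := 1 / 2 + y) hN (by norm_num)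
    (by rw [hXp]; ring) hYp.symm rfl (u := b / 2 + 3 * g + a) (v := -b / 2 + g / 4 + d) (by ring) (by ring)
    B1 B2 (b3 := b3) (g := g) (by linarith) (a := a) (ap := a1) (an := 3145728) (by push_cast; linarith) (d := d)
    (ep := e1) (en := 1572864) (by push_cast; linarith) dd1
  have w2 := wn_sound (h := h2) (σ := 1) (s := -1) (p := 1 / 2 - x) (q := 1 / 2 - y) hN (by norm_num)
    (by rw [hXm]; ring) hYm.symm rfl (u := b / 2 + 3 * g - a) (v := -b / 2 + g / 4 - d) (by ring) (by ring)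
    B1 B2 (b3 := b3) (g := g) (by linarith) (a := a) (ap := 3145728) (an := a0) (by push_cast; linarith) (d := d)
    (ep := 1572864) (en := e0) (by push_cast; linarith) dd2
  have w3 := wn_sound (h := h3) (σ := -1) (s := 1) (p := -1 / 2 + x) (q := 1 / 2 + y) hN (by norm_num)
    (by rw [hXm]; ring) hYp.symm rfl (u := -b / 2 + 3 * g + a) (v := -b / 2 - g / 4 + d) (by ring) (by ring)
    B1 B2 (b3 := b3) (g := g) (by linarith) (a := a) (ap := 3145728) (an := a0) (by push_cast; linarith) (d := d)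
    (ep := e1) (en := 1572864) (by push_cast; linarith) dd3
  have w4 := wn_sound (h := h4) (σ := -1) (s := -1) (p := -1 / 2 - x) (q := 1 / 2 - y) hN (by norm_num)
    (by rw [hXp]; ring) hYm.symm rfl (u := -b / 2 + 3 * g - a) (v := -b / 2 - g / 4 - d) (by ring) (by ring)
    B1 B2 (b3 := b3) (g := g) (by linarith) (a := a) (ap := a1) (an := 3145728) (by push_cast; linarith) (d := d)
    (ep := 1572864) (en := e0) (by push_cast; linarith) dd4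
  generalize ((wn Xp Yp (h1 * h1) bp bm b3 a1 3145728 e1 1572864 dd : ℕ) : ℝ) = W1 at key w1
  generalize ((wn Xm Ym (h2 * h2) bp bm b3 3145728 a0 1572864 e0 dd : ℕ) : ℝ) = W2 at key w2
  generalize ((wn Xm Yp (h3 * h3) bp bm b3 3145728 a0 e1 1572864 dd : ℕ) : ℝ) = W3 at key w3
  generalize ((wn Xp Ym (h4 * h4) bp bm b3 a1 3145728 1572864 e0 dd : ℕ) : ℝ) = W4 at key w4
  rw [hXp, hXm, hYp, hYm, hCp, hCm, hDp, hDm] at key
  have v1 := ed_real (kk := k1) (mm := m1) (pc := 1 / 2 + xc) (qc := 1 / 2 + yc) hN (Nat.cast_nonneg m1) w1 rfl rfl rfl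
  have v2 := ed_real (kk := k2) (mm := m2) (pc := 1 / 2 - xc) (qc := 1 / 2 - yc) hN (Nat.cast_nonneg m2) w2 rfl rfl rfl
  have v3 := ed_real (kk := k3) (mm := m3) (pc := -1 / 2 + xc) (qc := 1 / 2 + yc) hN (Nat.cast_nonneg m3) w3 rfl rfl rfl
  have v4 := ed_real (kk := k4) (mm := m4) (pc := -1 / 2 - xc) (qc := 1 / 2 - yc) hN (Nat.cast_nonneg m4) w4 rfl rfl rfl
  have fin : 12288 * (1048576 : ℝ) ^ 6 * F * (a ^ 2 + d ^ 2) ≤ 8192 * (1048576 : ℝ) ^ 7 *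
      Sk 1048576 D xc yc x y b g a d := by
    unfold Sk
    rw [q1, q2, q3, q4, q5, q6, q7, q8, q9, q10, q11, q12]
    simp only [Int.cast_natCast]
    have e0 : (12288 * (1048576 : ℝ) ^ 6 * F * (a ^ 2 + d ^ 2)) =
      16333553612205046246241981156724874149888 * F * (a ^ 2 + d ^ 2) := by norm_num
    rw [e0]
    refine le_trans key ?_
    have s1 : ∀ K A B C D' A' B' C' D'' : ℝ, A' ≤ K * A → B' ≤ K * B → C' ≤ K * C → D'' ≤ K * D' →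
        A' + B' + C' + D'' ≤ K * (A + B + C + D') := by
      intro K A B C D' A' B' C' D'' i1 i2 i3 i4
      linarith
    refine s1 _ _ _ _ _ _ _ _ _ (le_trans (le_of_eq ?_) v1) (le_trans (le_of_eq ?_) v2)
      (le_trans (le_of_eq ?_) v3) (le_trans (le_of_eq ?_) v4)
    · norm_num; ring
    · norm_num; ring
    · norm_num; ring
    · norm_num; ring
  have h6 : 8192 * (1048576 : ℝ) ^ 7 * (3 / 2 * ((F : ℝ) / 1048576) * (a ^ 2 + d ^ 2)) =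
      12288 * (1048576 : ℝ) ^ 6 * F * (a ^ 2 + d ^ 2) := by
    ring
  rw [← h6] at fin
  exact le_of_mul_le_mul_left fin (by norm_num)

end Pool.Agent.Helper48.TBN
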