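import Pool.Agent.Helper48.SH.TBN

/-!
# SHARP (MP_b21509_co), link (4): the leaf of type 6 (test (B)) for the kernel, and its soundness
-/

set_option autoImplicit false

namespace Pool.Agent.Helper48.TBN

open Pool.Agent.Helper88.P4 Pool.Agent.Helper25.SH Pool.Agent.Helper48.TB

/-- `max |a0 - o| |a1 - o|` -/
def mxd (a1 a0 o : ℕ) : ℕ := Nat.add (dif a0 o) (Nat.sub (dif a1 o) (dif a0 o))

def okn (h k m d1 d2 : ℕ) : Bool :=
  bif Nat.ble 1 h then bif Nat.ble (Nat.mul k k) (Nat.mul 6 (Nat.mul h m)) then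
  bif Nat.ble d1 (Nat.mul 32 (Nat.mul h h)) then Nat.ble d2 (Nat.mul 32 (Nat.mul h h))
  else false else false else false

/-- the four corners -/
def al4 (t k1 k2 k3 k4 m1 m2 m3 m4 g1 g2 g3 g4 bp bm b3 a0 a1 e0 e1 dd Cp Cm Dp Dm Xp0 Xm0 Xp1 Xm1
    Yp0 Ym0 Yp1 Ym1 : ℕ) : Bool :=
  bif cc t k1 k2 k3 k4 m1 m2 m3 m4 g1 g2 g3 g4 bp bm b3 a0 a1 e0 e1 dd Cp Cm Dp Dm Xp0 Xm0 Yp0 Ym0 then
  bif cc t k1 k2 k3 k4 m1 m2 m3 m4 g1 g2 g3 g4 bp bm b3 a0 a1 e0 e1 dd Cp Cm Dp Dm Xp0 Xm0 Yp1 Ym1 then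
  bif cc t k1 k2 k3 k4 m1 m2 m3 m4 g1 g2 g3 g4 bp bm b3 a0 a1 e0 e1 dd Cp Cm Dp Dm Xp1 Xm1 Yp0 Ym0 then
  cc t k1 k2 k3 k4 m1 m2 m3 m4 g1 g2 g3 g4 bp bm b3 a0 a1 e0 e1 dd Cp Cm Dp Dm Xp1 Xm1 Yp1 Ym1
  else false else false else false

def lf9 (F h1 k1 m1 h2 k2 m2 h3 k3 m3 h4 k4 m4 x0 x1 y0 y1 a0 a1 e0 e1 bp bm b3 d1 d2 : ℕ) : Bool :=
  bif okn h1 k1 m1 d1 d2 then bif okn h2 k2 m2 d1 d2 then bif okn h3 k3 m3 d1 d2 then
  bif okn h4 k4 m4 d1 d2 then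
    al4 (Nat.mul 16333553612205046246241981156724874149888 F) (Nat.mul 154742504910672534362390528 k1)
      (Nat.mul 154742504910672534362390528 k2) (Nat.mul 154742504910672534362390528 k3)
      (Nat.mul 154742504910672534362390528 k4) m1 m2 m3 m4 (Nat.mul h1 h1) (Nat.mul h2 h2) (Nat.mul h3 h3)
      (Nat.mul h4 h4) bp bm b3 a0 a1 e0 e1 (Nat.add d1 d2)
      (Nat.add 1048576 (Nat.add x0 x1)) (Nat.sub 1048576 (Nat.add x0 x1))
      (Nat.add 1048576 (Nat.add y0 y1)) (Nat.sub 1048576 (Nat.add y0 y1))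
      (Nat.add 1048576 (Nat.mul 2 x0)) (Nat.sub 1048576 (Nat.mul 2 x0))
      (Nat.add 1048576 (Nat.mul 2 x1)) (Nat.sub 1048576 (Nat.mul 2 x1))
      (Nat.add 1048576 (Nat.mul 2 y0)) (Nat.sub 1048576 (Nat.mul 2 y0))
      (Nat.add 1048576 (Nat.mul 2 y1)) (Nat.sub 1048576 (Nat.mul 2 y1))
  else false else false else false else false

def lf8 (F h1 k1 m1 h2 k2 m2 h3 k3 m3 h4 k4 m4 x0 x1 y0 y1 a0 a1 e0 e1 bp bm b3 dp dq : ℕ) : Bool :=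
  bif Nat.ble x0 x1 then bif Nat.ble y0 y1 then bif Nat.ble (Nat.mul 2 x1) 1048576 then
  bif Nat.ble (Nat.mul 2 y1) 1048576 then
  bif Nat.ble (Nat.add 1048576 (Nat.mul 2 x1)) (Nat.mul 12 (Nat.sub 1048576 (Nat.mul 2 y1))) then
    lf9 F h1 k1 m1 h2 k2 m2 h3 k3 m3 h4 k4 m4 x0 x1 y0 y1 a0 a1 e0 e1 bp bm b3 (Nat.mul dp dp)
      (Nat.mul 3 (Nat.mul dq dq))
  else false else false else false else false else false

def lf7 (F h1 k1 m1 h2 k2 m2 h3 k3 m3 h4 k4 m4 x0 x1 y0 y1 a0 a1 e0 e1 bp bm b3 za ze : ℕ) : Bool :=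
  lf8 F h1 k1 m1 h2 k2 m2 h3 k3 m3 h4 k4 m4 x0 x1 y0 y1 a0 a1 e0 e1 bp bm b3
    (Nat.add (Nat.mul 2 bp) (Nat.add (Nat.mul 12 b3) (Nat.mul 4 za)))
    (Nat.add (Nat.mul 2 bp) (Nat.add b3 (Nat.mul 4 ze)))

def lfB (F T2 T3 h1 k1 m1 h2 k2 m2 h3 k3 m3 h4 k4 m4 x0 x1 y0 y1 a0 a1 e0 e1 za ze : ℕ) : Bool :=
  bif Nat.ble (Nat.mul (Nat.mul 3 F) (Nat.add (Nat.mul za za) (Nat.mul ze ze))) (Nat.mul 2097152 (Nat.mul T2 T2)) then
  bif Nat.ble (Nat.mul F (Nat.add (Nat.mul za za) (Nat.mul ze ze))) (Nat.mul 3145728 (Nat.mul T3 T3)) then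
    lf7 F h1 k1 m1 h2 k2 m2 h3 k3 m3 h4 k4 m4 x0 x1 y0 y1 a0 a1 e0 e1 (Nat.add T2 37749) (Nat.add T2 18875)
      (Nat.add T3 33903) za ze
  else false else false

/-- LEAF OF TYPE 6: data `T2` (20 bits), `T3` (20 bits), then `h_k` (22 bits), `κ_k` (24 bits), `μ_k` (26 bits) for `k = 1, 2, 3, 4`;
`328` bits -/
def leaf6 (F d x0 x1 y0 y1 a0 a1 e0 e1 : ℕ) : Bool :=
  lfB F (bt d 0 20) (bt d 20 20) (bt d 40 22) (bt d 62 24) (bt d 86 26) (bt d 112 22) (bt d 134 24) (bt d 158 26)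
    (bt d 184 22) (bt d 206 24) (bt d 230 26) (bt d 256 22) (bt d 278 24) (bt d 302 26)
    x0 x1 y0 y1 a0 a1 e0 e1 (mxd a1 a0 3145728) (mxd e1 e0 1572864)

/-! ### soundness -/

theorem okn_okk {h k m dp dq : ℕ} (H : okn h k m (Nat.mul dp dp) (Nat.mul 3 (Nat.mul dq dq)) = true) :
    okk (h : ℤ) k m dp dq = true := by
  simp only [okn, bif_and] at H
  obtain ⟨h1, h2, h3, h4⟩ := H
  have i1 : 1 ≤ h := Nat.le_of_ble_eq_true h1
  have i2 : k * k ≤ 6 * (h * m) := Nat.le_of_ble_eq_true h2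
  have i3 : dp * dp ≤ 32 * (h * h) := Nat.le_of_ble_eq_true h3
  have i4 : 3 * (dq * dq) ≤ 32 * (h * h) := Nat.le_of_ble_eq_true h4
  simp only [okk, Bool.and_eq_true, decide_eq_true_eq]
  refine ⟨by omega, by exact_mod_cast i2, by exact_mod_cast i3, by exact_mod_cast i4⟩

/-- from four corners to the cell -/
theorem interp {N : ℝ} {D : BD} {xa xb ya yb xc yc x0 y0 b g a d c : ℝ}
    (s00 : c ≤ Sk N D xc yc xa ya b g a d) (s01 : c ≤ Sk N D xc yc xa yb b g a d)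
    (s10 : c ≤ Sk N D xc yc xb ya b g a d) (s11 : c ≤ Sk N D xc yc xb yb b g a d)
    (hx0 : xa ≤ x0) (hx1 : x0 ≤ xb) (hy0 : ya ≤ y0) (hy1 : y0 ≤ yb)
    (m1 : 0 ≤ (D.m1 : ℝ) / N) (m2 : 0 ≤ (D.m2 : ℝ) / N) (m3 : 0 ≤ (D.m3 : ℝ) / N) (m4 : 0 ≤ (D.m4 : ℝ) / N)
    (u1 : (b / 2 + 3 * g + a) ^ 2 ≤ 8 * (D.h1 / (2 * N)) ^ 2) (u2 : (b / 2 + 3 * g - a) ^ 2 ≤ 8 * (D.h2 / (2 * N)) ^ 2)
    (u3 : (-b / 2 + 3 * g + a) ^ 2 ≤ 8 * (D.h3 / (2 * N)) ^ 2) (u4 : (-b / 2 + 3 * g - a) ^ 2 ≤ 8 * (D.h4 / (2 * N)) ^ 2)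
    (v1 : 3 * (-b / 2 + g / 4 + d) ^ 2 ≤ 8 * (D.h1 / (2 * N)) ^ 2)
    (v2 : 3 * (-b / 2 + g / 4 - d) ^ 2 ≤ 8 * (D.h2 / (2 * N)) ^ 2)
    (v3 : 3 * (-b / 2 - g / 4 + d) ^ 2 ≤ 8 * (D.h3 / (2 * N)) ^ 2)
    (v4 : 3 * (-b / 2 - g / 4 - d) ^ 2 ≤ 8 * (D.h4 / (2 * N)) ^ 2) :
    c ≤ Sk N D xc yc x0 y0 b g a d := by
  obtain ⟨θ, t0, t1, tx⟩ := conv_par hx0 hx1
  obtain ⟨φ, p0, p1, py⟩ := conv_par hy0 hy1
  have r0 := Sk_y (a := a) (D := D) (xc := xc) (yc := yc) (x0 := xa) (ya := ya) (yb := yb) m1 m2 m3 m4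
    v1 v2 v3 v4 p0 p1
  have r1 := Sk_y (a := a) (D := D) (xc := xc) (yc := yc) (x0 := xb) (ya := ya) (yb := yb) m1 m2 m3 m4
    v1 v2 v3 v4 p0 p1
  rw [← py] at r0 r1
  have w0 := (min_conv p0 p1 s00 s01).trans r0
  have w1 := (min_conv p0 p1 s10 s11).trans r1
  have r2 := Sk_x (d := d) (D := D) (xc := xc) (yc := yc) (y0 := y0) (xa := xa) (xb := xb) m1 m2 m3 m4
    u1 u2 u3 u4 t0 t1
  rw [← tx] at r2
  exact (min_conv t0 t1 w0 w1).trans r2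

/-- the reduction of `Good` to the main case -/
theorem good_real (n f p2 p3 lo hi be r0 r1 T2 T3 zz : ℝ) (hn : 0 < n) (hf : 0 ≤ f)
    (hp2 : 0 < p2) (hp3 : 0 < p3) (X0 X1 Y0 Y1 A0 A1 E0 E1 : ℤ) (hT2 : 0 ≤ T2) (hT3 : 0 ≤ T3)
    (hzz : ∀ a d : ℝ, (A0 : ℝ) ≤ n * a → n * a ≤ A1 → (E0 : ℝ) ≤ n * d → n * d ≤ E1 →
      n ^ 2 * (a ^ 2 + d ^ 2) ≤ zz)
    (Q2 : 3 * (f * zz) ≤ 2 * (p2 * (T2 * T2))) (Q3 : f * zz ≤ 2 * (p3 * (T3 * T3)))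
    (main : ∀ x0 y0 a d b g : ℝ, (X0 : ℝ) ≤ n * x0 → n * x0 ≤ X1 → (Y0 : ℝ) ≤ n * y0 → n * y0 ≤ Y1 →
      (A0 : ℝ) ≤ n * a → n * a ≤ A1 → (E0 : ℝ) ≤ n * d → n * d ≤ E1 →
      0 ≤ x0 → x0 ≤ 1 / 2 → 0 ≤ y0 → y0 < 1 / 2 → n * b ≤ n * hi + T2 → -(n * b) ≤ -(n * lo) + T2 →
      n * g ≤ n * be + T3 → -(n * g) ≤ n * be + T3 →
      3 / 2 * f * (a ^ 2 + d ^ 2) ≤ RS x0 y0 b g (x0 + a) (y0 + d)) :
    Good n f p2 p3 lo hi be r0 r1 X0 X1 Y0 Y1 A0 A1 E0 E1 := by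
  intro x0 y0 a d hx0 hx1 hy0 hy1 ha0 ha1 hd0 hd1 px qx py qy _ _ c h hc1 hc2 hh b g hDom
  have hS := hzz a d ha0 ha1 hd0 hd1
  have n1 : 0 < nr (1 / 2 + x0) (1 / 2 + y0) := nr_pos_right _ _ (by linarith)
  have n2 : 0 < nr (1 / 2 - x0) (1 / 2 - y0) := nr_pos_right _ _ (by linarith)
  have n3 : 0 < nr (-1 / 2 + x0) (1 / 2 + y0) := nr_pos_right _ _ (by linarith)
  have n4 : 0 < nr (-1 / 2 - x0) (1 / 2 - y0) := nr_pos_right _ _ (by linarith)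
  have hRS : 0 ≤ RS x0 y0 b g (x0 + a) (y0 + d) := by
    unfold RS
    have := rk_nonneg _ _ (1 / 2 + b / 2 + 3 * g + (x0 + a)) (1 / 2 - b / 2 + g / 4 + (y0 + d)) n1
    have := rk_nonneg _ _ (1 / 2 + b / 2 + 3 * g - (x0 + a)) (1 / 2 - b / 2 + g / 4 - (y0 + d)) n2
    have := rk_nonneg _ _ (-1 / 2 - b / 2 + 3 * g + (x0 + a)) (1 / 2 - b / 2 - g / 4 + (y0 + d)) n3
    have := rk_nonneg _ _ (-1 / 2 - b / 2 + 3 * g - (x0 + a)) (1 / 2 - b / 2 - g / 4 - (y0 + d)) n4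
    linarith
  have hS' : 3 * (f * (n ^ 2 * (a ^ 2 + d ^ 2))) ≤ 3 * (f * zz) := by
    have := mul_le_mul_of_nonneg_left hS hf
    linarith
  have hpb : 0 ≤ p2 * (b - c) ^ 2 := by positivity
  have hpg : 0 ≤ 3 * p3 * (g - h) ^ 2 := by positivity
  have hgoal : 3 / 2 * f * (a ^ 2 + d ^ 2) ≤
      RS x0 y0 b g (x0 + a) (y0 + d) + p2 * (b - c) ^ 2 + 3 * p3 * (g - h) ^ 2 := by
    by_cases hb : n * |b - c| ≤ T2
    · by_cases hg : n * |g - h| ≤ T3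
      · have jb : |n * (b - c)| ≤ T2 := by rw [abs_mul, abs_of_pos hn]; exact hb
        have jg : |n * (g - h)| ≤ T3 := by rw [abs_mul, abs_of_pos hn]; exact hg
        rw [abs_le] at jb jg
        have jh := abs_le.1 hh
        have lc : n * lo ≤ n * c := mul_le_mul_of_nonneg_left hc1 hn.le
        have hc : n * c ≤ n * hi := mul_le_mul_of_nonneg_left hc2 hn.le
        have lh : n * h ≤ n * be := mul_le_mul_of_nonneg_left jh.2 hn.le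
        have lh' : -(n * be) ≤ n * h := by
          have := mul_le_mul_of_nonneg_left jh.1 hn.le
          linarith
        have key := main x0 y0 a d b g hx0 hx1 hy0 hy1 ha0 ha1 hd0 hd1 px qx py qy
          (by linarith [jb.2]) (by linarith [jb.1]) (by linarith [jg.2]) (by linarith [jg.1])
        linarith
      · push Not at hg
        have h1 : T3 * T3 ≤ n ^ 2 * (g - h) ^ 2 := by
          have := mul_le_mul hg.le hg.le hT3 (by positivity : 0 ≤ n * |g - h|)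
          have e : n * |g - h| * (n * |g - h|) = n ^ 2 * (g - h) ^ 2 := by
            rw [← sq_abs (g - h)]
            ring
          rw [e] at this
          exact this
        have h3 : p3 * (T3 * T3) ≤ p3 * (n ^ 2 * (g - h) ^ 2) := mul_le_mul_of_nonneg_left h1 hp3.le
        have h4 : n ^ 2 * (3 / 2 * f * (a ^ 2 + d ^ 2)) ≤ n ^ 2 * (3 * p3 * (g - h) ^ 2) := by linarith
        have h5 := le_of_mul_le_mul_left h4 (by positivity)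
        linarith
    · push Not at hb
      have h1 : T2 * T2 ≤ n ^ 2 * (b - c) ^ 2 := by
        have := mul_le_mul hb.le hb.le hT2 (by positivity : 0 ≤ n * |b - c|)
        have e : n * |b - c| * (n * |b - c|) = n ^ 2 * (b - c) ^ 2 := by
          rw [← sq_abs (b - c)]
          ring
        rw [e] at this
        exact this
      have h3 : p2 * (T2 * T2) ≤ p2 * (n ^ 2 * (b - c) ^ 2) := mul_le_mul_of_nonneg_left h1 hp2.le
      have h4 : n ^ 2 * (3 / 2 * f * (a ^ 2 + d ^ 2)) ≤ n ^ 2 * (p2 * (b - c) ^ 2) := by linarith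
      have h5 := le_of_mul_le_mul_left h4 (by positivity)
      linarith
  unfold Ineq
  have e1 : x0 + a - x0 = a := by ring
  have e2 : y0 + d - y0 = d := by ring
  rw [e1, e2]
  exact hgoal

theorem dif_abs (p n : ℕ) : ((dif p n : ℕ) : ℝ) = |(p : ℝ) - n| := by
  have e : dif p n = (p - n) + (n - p) := rfl
  rcases le_total n p with h | h
  · have h' : (n : ℝ) ≤ p := Nat.cast_le.2 h
    rw [e, Nat.sub_eq_zero_of_le h, add_zero, Nat.cast_sub h, abs_of_nonneg (by linarith)]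
  · have h' : (p : ℝ) ≤ n := Nat.cast_le.2 h
    rw [e, Nat.sub_eq_zero_of_le h, zero_add, Nat.cast_sub h, abs_of_nonpos (by linarith)]
    ring

theorem mxd_ge {a0 a1 o : ℕ} {t : ℝ} (h0 : (a0 : ℝ) - o ≤ t) (h1 : t ≤ (a1 : ℝ) - o) :
    |t| ≤ (mxd a1 a0 o : ℕ) := by
  have e0 := dif_abs a0 o
  have e1 := dif_abs a1 o
  have h2 : dif a0 o ≤ mxd a1 a0 o := Nat.le_add_right _ _
  have h3 : dif a1 o ≤ mxd a1 a0 o := by
    unfold mxd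
    simp only [Nat.add_eq, Nat.sub_eq]
    omega
  have h2' : ((dif a0 o : ℕ) : ℝ) ≤ (mxd a1 a0 o : ℕ) := Nat.cast_le.2 h2
  have h3' : ((dif a1 o : ℕ) : ℝ) ≤ (mxd a1 a0 o : ℕ) := Nat.cast_le.2 h3
  rw [e0] at h2'
  rw [e1] at h3'
  rw [abs_le] at h2' h3' ⊢
  constructor
  · linarith [h2'.1]
  · linarith [h3'.2]

theorem lin3 {B G A b g a : ℝ} (hb : |b| ≤ B) (hg : |g| ≤ G) (ha : |a| ≤ A) (p q r P Q R : ℝ) (hp : |p| ≤ P)
    (hq : |q| ≤ Q) (hr : |r| ≤ R) : |p * b + q * g + r * a| ≤ P * B + Q * G + R * A := by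
  have h1 : |p * b + q * g + r * a| ≤ |p * b| + |q * g| + |r * a| := abs_add_three _ _ _
  have k1 : |p * b| ≤ P * B := by
    rw [abs_mul]
    exact mul_le_mul hp hb (abs_nonneg _) ((abs_nonneg _).trans hp)
  have k2 : |q * g| ≤ Q * G := by
    rw [abs_mul]
    exact mul_le_mul hq hg (abs_nonneg _) ((abs_nonneg _).trans hq)
  have k3 : |r * a| ≤ R * A := by
    rw [abs_mul]
    exact mul_le_mul hr ha (abs_nonneg _) ((abs_nonneg _).trans hr)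
  linarith

theorem sq_le_of_abs {n u dp : ℝ} (h : |4 * n * u| ≤ dp) : 16 * n ^ 2 * u ^ 2 ≤ dp * dp := by
  have h0 : 0 ≤ dp := (abs_nonneg _).trans h
  have h1 : |4 * n * u| ^ 2 ≤ dp ^ 2 := pow_le_pow_left₀ (abs_nonneg _) h 2
  rw [sq_abs] at h1
  nlinarith

theorem sub_c {x : ℕ} (h : x ≤ 1048576) : ((Nat.sub 1048576 x : ℕ) : ℝ) = 1048576 - x := by
  simp only [Nat.sub_eq]
  rw [Nat.cast_sub h]
  norm_num

theorem add_c (x : ℕ) : ((Nat.add 1048576 x : ℕ) : ℝ) = 1048576 + x := by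
  simp only [Nat.add_eq, Nat.cast_add]
  norm_num

theorem lf8_sound {F h1 k1 m1 h2 k2 m2 h3 k3 m3 h4 k4 m4 x0 x1 y0 y1 a0 a1 e0 e1 bp bm b3 dp dq : ℕ}
    (H : lf8 F h1 k1 m1 h2 k2 m2 h3 k3 m3 h4 k4 m4 x0 x1 y0 y1 a0 a1 e0 e1 bp bm b3 dp dq = true)
    {x y a d b g : ℝ} (hx0 : (x0 : ℝ) ≤ 1048576 * x) (hx1 : 1048576 * x ≤ x1) (hy0 : (y0 : ℝ) ≤ 1048576 * y)
    (hy1 : 1048576 * y ≤ y1)
    (B1 : 1048576 * b ≤ bp) (B2 : -(1048576 * b) ≤ bm) (G1 : 1048576 * g ≤ b3) (G2 : -(1048576 * g) ≤ b3)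
    (A0 : (a0 : ℝ) - 3145728 ≤ 1048576 * a) (A1 : 1048576 * a ≤ (a1 : ℝ) - 3145728)
    (E0 : (e0 : ℝ) - 1572864 ≤ 1048576 * d) (E1 : 1048576 * d ≤ (e1 : ℝ) - 1572864)
    (u1 : |4 * 1048576 * (b / 2 + 3 * g + a)| ≤ dp) (u2 : |4 * 1048576 * (b / 2 + 3 * g - a)| ≤ dp)
    (u3 : |4 * 1048576 * (-b / 2 + 3 * g + a)| ≤ dp) (u4 : |4 * 1048576 * (-b / 2 + 3 * g - a)| ≤ dp)
    (v1 : |4 * 1048576 * (-b / 2 + g / 4 + d)| ≤ dq) (v2 : |4 * 1048576 * (-b / 2 + g / 4 - d)| ≤ dq)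
    (v3 : |4 * 1048576 * (-b / 2 - g / 4 + d)| ≤ dq) (v4 : |4 * 1048576 * (-b / 2 - g / 4 - d)| ≤ dq)
    (n1 : 0 < nr (1 / 2 + x) (1 / 2 + y)) (n2 : 0 < nr (1 / 2 - x) (1 / 2 - y))
    (n3 : 0 < nr (-1 / 2 + x) (1 / 2 + y)) (n4 : 0 < nr (-1 / 2 - x) (1 / 2 - y)) :
    3 / 2 * ((F : ℝ) / 1048576) * (a ^ 2 + d ^ 2) ≤ RS x y b g (x + a) (y + d) := by
  simp only [lf8, lf9, bif_and] at H
  obtain ⟨c1, c2, c3, c4, c5, o1, o2, o3, o4, H⟩ := H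
  have i1 : x0 ≤ x1 := Nat.le_of_ble_eq_true c1
  have i2 : y0 ≤ y1 := Nat.le_of_ble_eq_true c2
  have i3 : 2 * x1 ≤ 1048576 := Nat.le_of_ble_eq_true c3
  have i4 : 2 * y1 ≤ 1048576 := Nat.le_of_ble_eq_true c4
  have i5 : 1048576 + 2 * x1 ≤ 12 * (1048576 - 2 * y1) := Nat.le_of_ble_eq_true c5
  have hN : (0 : ℝ) < 1048576 := by norm_num
  obtain ⟨D, hD⟩ : ∃ D : BD, D = ⟨0, 0, h1, k1, m1, h2, k2, m2, h3, k3, m3, h4, k4, m4⟩ := ⟨_, rfl⟩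
  have q1 : D.k1 = k1 := by rw [hD]
  have q2 : D.k2 = k2 := by rw [hD]
  have q3 : D.k3 = k3 := by rw [hD]
  have q4 : D.k4 = k4 := by rw [hD]
  have q5 : D.m1 = m1 := by rw [hD]
  have q6 : D.m2 = m2 := by rw [hD]
  have q7 : D.m3 = m3 := by rw [hD]
  have q8 : D.m4 = m4 := by rw [hD]
  have q9 : D.h1 = h1 := by rw [hD]
  have q10 : D.h2 = h2 := by rw [hD]
  have q11 : D.h3 = h3 := by rw [hD]
  have q12 : D.h4 = h4 := by rw [hD]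
  have s1 := okn_okk o1
  have s2 := okn_okk o2
  have s3 := okn_okk o3
  have s4 := okn_okk o4
  rw [← q1, ← q5, ← q9] at s1
  rw [← q2, ← q6, ← q10] at s2
  rw [← q3, ← q7, ← q11] at s3
  rw [← q4, ← q8, ← q12] at s4
  obtain ⟨o11, o12, o13, o14, o15⟩ := okk_real hN s1
  obtain ⟨o21, o22, o23, o24, o25⟩ := okk_real hN s2
  obtain ⟨o31, o32, o33, o34, o35⟩ := okk_real hN s3
  obtain ⟨o41, o42, o43, o44, o45⟩ := okk_real hN s4
  have ca : ∀ u : ℝ, |4 * 1048576 * u| ≤ dp → 4 * 1048576 * |u| ≤ ((dp : ℤ) : ℝ) := by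
    intro u hu
    rw [abs_mul, abs_of_pos (by norm_num : (0 : ℝ) < 4 * 1048576)] at hu
    simpa using hu
  have cb : ∀ u : ℝ, |4 * 1048576 * u| ≤ dq → 4 * 1048576 * |u| ≤ ((dq : ℤ) : ℝ) := by
    intro u hu
    rw [abs_mul, abs_of_pos (by norm_num : (0 : ℝ) < 4 * 1048576)] at hu
    simpa using hu
  have dd : ∀ u v : ℝ, |4 * 1048576 * u| ≤ dp → |4 * 1048576 * v| ≤ dq →
      16 * (1048576 : ℝ) ^ 2 * (u ^ 2 + 3 * v ^ 2) ≤ (Nat.add (Nat.mul dp dp) (Nat.mul 3 (Nat.mul dq dq)) : ℕ) := by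
    intro u v hu hv
    have r1 := sq_le_of_abs hu
    have r2 := sq_le_of_abs hv
    simp only [Nat.add_eq, Nat.mul_eq, Nat.cast_add, Nat.cast_mul, Nat.cast_ofNat]
    linarith
  have e1 := dd _ _ u1 v1
  have e2 := dd _ _ u2 v2
  have e3 := dd _ _ u3 v3
  have e4 := dd _ _ u4 v4
  simp only [al4, bif_and] at H
  obtain ⟨C1, C2, C3, C4⟩ := H
  have hxc : ((Nat.add 1048576 (Nat.add x0 x1) : ℕ) : ℝ) = 2 * 1048576 * (1 / 2 + ((x0 : ℝ) + x1) / (2 * 1048576)) := by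
    rw [add_c]
    simp only [Nat.add_eq, Nat.cast_add]
    ring
  have hxc' : ((Nat.sub 1048576 (Nat.add x0 x1) : ℕ) : ℝ) = 2 * 1048576 * (1 / 2 - ((x0 : ℝ) + x1) / (2 * 1048576)) := by
    rw [sub_c (by simp only [Nat.add_eq]; omega)]
    simp only [Nat.add_eq, Nat.cast_add]
    ring
  have hyc : ((Nat.add 1048576 (Nat.add y0 y1) : ℕ) : ℝ) = 2 * 1048576 * (1 / 2 + ((y0 : ℝ) + y1) / (2 * 1048576)) := by
    rw [add_c]
    simp only [Nat.add_eq, Nat.cast_add]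
    ring
  have hyc' : ((Nat.sub 1048576 (Nat.add y0 y1) : ℕ) : ℝ) = 2 * 1048576 * (1 / 2 - ((y0 : ℝ) + y1) / (2 * 1048576)) := by
    rw [sub_c (by simp only [Nat.add_eq]; omega)]
    simp only [Nat.add_eq, Nat.cast_add]
    ring
  have cp : ∀ z : ℕ, ((Nat.add 1048576 (Nat.mul 2 z) : ℕ) : ℝ) = 2 * 1048576 * (1 / 2 + (z : ℝ) / 1048576) := by
    intro z
    rw [add_c]
    simp only [Nat.mul_eq, Nat.cast_mul, Nat.cast_ofNat]
    ring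
  have cm : ∀ z : ℕ, 2 * z ≤ 1048576 → ((Nat.sub 1048576 (Nat.mul 2 z) : ℕ) : ℝ) =
      2 * 1048576 * (1 / 2 - (z : ℝ) / 1048576) := by
    intro z hz
    rw [sub_c (by simp only [Nat.mul_eq]; exact hz)]
    simp only [Nat.mul_eq, Nat.cast_mul, Nat.cast_ofNat]
    ring
  have j1 : 2 * x0 ≤ 1048576 := by omega
  have j2 : 2 * y0 ≤ 1048576 := by omega
  have t00 := cc_sound C1 (by simp only [Nat.add_eq, Nat.mul_eq, Nat.sub_eq]; omega)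
    (by simp only [Nat.add_eq, Nat.sub_eq]; omega) (by simp only [Nat.mul_eq, Nat.sub_eq]; omega)
    (by simp only [Nat.add_eq, Nat.sub_eq]; omega) (by simp only [Nat.add_eq, Nat.mul_eq, Nat.sub_eq]; omega)
    (by simp only [Nat.add_eq, Nat.sub_eq]; omega) (cp x0) (cm x0 j1) (cp y0) (cm y0 j2) hxc hxc' hyc hyc'
    B1 B2 G1 G2 A0 A1 E0 E1 e1 e2 e3 e4 D q1 q2 q3 q4 q5 q6 q7 q8 q9 q10 q11 q12
  have t01 := cc_sound C2 (by simp only [Nat.add_eq, Nat.mul_eq, Nat.sub_eq]; omega)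
    (by simp only [Nat.add_eq, Nat.sub_eq]; omega) (by simp only [Nat.mul_eq, Nat.sub_eq]; omega)
    (by simp only [Nat.add_eq, Nat.sub_eq]; omega) (by simp only [Nat.add_eq, Nat.mul_eq, Nat.sub_eq]; omega)
    (by simp only [Nat.add_eq, Nat.sub_eq]; omega) (cp x0) (cm x0 j1) (cp y1) (cm y1 i4) hxc hxc' hyc hyc'
    B1 B2 G1 G2 A0 A1 E0 E1 e1 e2 e3 e4 D q1 q2 q3 q4 q5 q6 q7 q8 q9 q10 q11 q12
  have t10 := cc_sound C3 (by simp only [Nat.add_eq, Nat.mul_eq, Nat.sub_eq]; omega)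
    (by simp only [Nat.add_eq, Nat.sub_eq]; omega) (by simp only [Nat.mul_eq, Nat.sub_eq]; omega)
    (by simp only [Nat.add_eq, Nat.sub_eq]; omega) (by simp only [Nat.add_eq, Nat.mul_eq, Nat.sub_eq]; omega)
    (by simp only [Nat.add_eq, Nat.sub_eq]; omega) (cp x1) (cm x1 i3) (cp y0) (cm y0 j2) hxc hxc' hyc hyc'
    B1 B2 G1 G2 A0 A1 E0 E1 e1 e2 e3 e4 D q1 q2 q3 q4 q5 q6 q7 q8 q9 q10 q11 q12
  have t11 := cc_sound C4 (by simp only [Nat.add_eq, Nat.mul_eq, Nat.sub_eq]; omega)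
    (by simp only [Nat.add_eq, Nat.sub_eq]; omega) (by simp only [Nat.mul_eq, Nat.sub_eq]; omega)
    (by simp only [Nat.add_eq, Nat.sub_eq]; omega) (by simp only [Nat.add_eq, Nat.mul_eq, Nat.sub_eq]; omega)
    (by simp only [Nat.add_eq, Nat.sub_eq]; omega) (cp x1) (cm x1 i3) (cp y1) (cm y1 i4) hxc hxc' hyc hyc'
    B1 B2 G1 G2 A0 A1 E0 E1 e1 e2 e3 e4 D q1 q2 q3 q4 q5 q6 q7 q8 q9 q10 q11 q12
  have hx0' : (x0 : ℝ) / 1048576 ≤ x := by rw [div_le_iff₀ hN]; linarith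
  have hx1' : x ≤ (x1 : ℝ) / 1048576 := by rw [le_div_iff₀ hN]; linarith
  have hy0' : (y0 : ℝ) / 1048576 ≤ y := by rw [div_le_iff₀ hN]; linarith
  have hy1' : y ≤ (y1 : ℝ) / 1048576 := by rw [le_div_iff₀ hN]; linarith
  have w := interp t00 t01 t10 t11 hx0' hx1' hy0' hy1' (div_nonneg o12 hN.le) (div_nonneg o22 hN.le)
    (div_nonneg o32 hN.le) (div_nonneg o42 hN.le) (o14 _ (ca _ u1)) (o24 _ (ca _ u2)) (o34 _ (ca _ u3))
    (o44 _ (ca _ u4)) (o15 _ (cb _ v1)) (o25 _ (cb _ v2)) (o35 _ (cb _ v3)) (o45 _ (cb _ v4))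
  exact w.trans (Sk_le_RS n1 n2 n3 n4 o11 o21 o31 o41 o13 o23 o33 o43)

/-- SOUNDNESS of the leaf of type 6 -/
theorem leaf6_sound (F dt x0 x1 y0 y1 a0 a1 e0 e1 : ℕ) (H : leaf6 F dt x0 x1 y0 y1 a0 a1 e0 e1 = true) :
    GoodF F x0 x1 y0 y1 ((a0 : ℤ) - 3145728) ((a1 : ℤ) - 3145728) ((e0 : ℤ) - 1572864) ((e1 : ℤ) - 1572864) := by
  unfold leaf6 at H
  generalize bt dt 0 20 = T2 at H
  generalize bt dt 20 20 = T3 at H
  simp only [lfB, bif_and, lf7] at H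
  obtain ⟨c1, c2, H⟩ := H
  have hA : ∀ a : ℝ, (((a0 : ℤ) - 3145728 : ℤ) : ℝ) ≤ 1048576 * a → 1048576 * a ≤ (((a1 : ℤ) - 3145728 : ℤ) : ℝ) →
      |1048576 * a| ≤ (mxd a1 a0 3145728 : ℕ) := by
    intro a h1 h2
    push_cast at h1 h2
    exact mxd_ge (by push_cast; linarith) (by push_cast; linarith)
  have hE : ∀ d : ℝ, (((e0 : ℤ) - 1572864 : ℤ) : ℝ) ≤ 1048576 * d → 1048576 * d ≤ (((e1 : ℤ) - 1572864 : ℤ) : ℝ) →
      |1048576 * d| ≤ (mxd e1 e0 1572864 : ℕ) := by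
    intro d h1 h2
    push_cast at h1 h2
    exact mxd_ge (by push_cast; linarith) (by push_cast; linarith)
  generalize mxd a1 a0 3145728 = za at c1 c2 H hA
  generalize mxd e1 e0 1572864 = ze at c1 c2 H hE
  have k1 := ble_cast c1
  have k2 := ble_cast c2
  simp only [Nat.mul_eq, Nat.add_eq, Nat.cast_mul, Nat.cast_add, Nat.cast_ofNat] at k1 k2
  unfold GoodF
  refine good_real 1048576 ((F : ℝ) / 1048576) 1 (3 / 2) _ _ _ 0 274877906944 T2 T3 ((za : ℝ) * za + ze * ze)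
    (by norm_num) (by positivity) one_pos (by norm_num) _ _ _ _ _ _ _ _ (Nat.cast_nonneg _) (Nat.cast_nonneg _)
    ?_ ?_ ?_ ?_
  · intro a d h1 h2 h3 h4
    have l1 := hA a h1 h2
    have l2 := hE d h3 h4
    have l3 : |1048576 * a| ^ 2 ≤ (za : ℝ) ^ 2 := pow_le_pow_left₀ (abs_nonneg _) l1 2
    have l4 : |1048576 * d| ^ 2 ≤ (ze : ℝ) ^ 2 := pow_le_pow_left₀ (abs_nonneg _) l2 2
    rw [sq_abs] at l3 l4
    linarith
  · have : (3 * ((F : ℝ) / 1048576 * ((za : ℝ) * za + ze * ze))) * 1048576 ≤ (2 * (1 * ((T2 : ℝ) * T2))) * 1048576 := by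
      have e : (3 * ((F : ℝ) / 1048576 * ((za : ℝ) * za + ze * ze))) * 1048576 = 3 * F * ((za : ℝ) * za + ze * ze) := by
        ring
      rw [e]
      linarith
    exact le_of_mul_le_mul_right this (by norm_num)
  · have : ((F : ℝ) / 1048576 * ((za : ℝ) * za + ze * ze)) * 1048576 ≤ (2 * (3 / 2 * ((T3 : ℝ) * T3))) * 1048576 := by
      have e : ((F : ℝ) / 1048576 * ((za : ℝ) * za + ze * ze)) * 1048576 = F * ((za : ℝ) * za + ze * ze) := by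
        ring
      rw [e]
      linarith
    exact le_of_mul_le_mul_right this (by norm_num)
  · intro x y a d b g hx0 hx1 hy0 hy1 ha0 ha1 hd0 hd1 px qx py qy b1 b2 g1 g2
    have l1 := hA a ha0 ha1
    have l2 := hE d hd0 hd1
    push_cast at hx0 hx1 hy0 hy1 ha0 ha1 hd0 hd1
    have B1 : 1048576 * b ≤ ((Nat.add T2 37749 : ℕ) : ℝ) := by
      simp only [Nat.add_eq, Nat.cast_add, Nat.cast_ofNat]
      linarith
    have B2 : -(1048576 * b) ≤ ((Nat.add T2 18875 : ℕ) : ℝ) := by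
      simp only [Nat.add_eq, Nat.cast_add, Nat.cast_ofNat]
      linarith
    have G1 : 1048576 * g ≤ ((Nat.add T3 33903 : ℕ) : ℝ) := by
      simp only [Nat.add_eq, Nat.cast_add, Nat.cast_ofNat]
      linarith
    have G2 : -(1048576 * g) ≤ ((Nat.add T3 33903 : ℕ) : ℝ) := by
      simp only [Nat.add_eq, Nat.cast_add, Nat.cast_ofNat]
      linarith
    have Bab : |1048576 * b| ≤ ((Nat.add T2 37749 : ℕ) : ℝ) := by
      rw [abs_le]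
      refine ⟨?_, B1⟩
      have : ((Nat.add T2 18875 : ℕ) : ℝ) ≤ ((Nat.add T2 37749 : ℕ) : ℝ) := by
        simp only [Nat.add_eq, Nat.cast_add, Nat.cast_ofNat]
        linarith
      linarith
    have Gab : |1048576 * g| ≤ ((Nat.add T3 33903 : ℕ) : ℝ) := by
      rw [abs_le]
      exact ⟨by linarith, G1⟩
    generalize Nat.add T2 37749 = bp at H B1 Bab
    generalize Nat.add T2 18875 = bm at H B2
    generalize Nat.add T3 33903 = b3 at H G1 G2 Gab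
    have ho : |(1 : ℝ) / 2| ≤ 1 / 2 := by rw [abs_le]; constructor <;> norm_num
    have ho' : |(-1 : ℝ) / 2| ≤ 1 / 2 := by rw [abs_le]; constructor <;> norm_num
    have h3 : |(3 : ℝ)| ≤ 3 := by rw [abs_le]; constructor <;> norm_num
    have h1 : |(1 : ℝ)| ≤ 1 := by rw [abs_le]; constructor <;> norm_num
    have h1' : |(-1 : ℝ)| ≤ 1 := by rw [abs_le]; constructor <;> norm_num
    have h4 : |(1 : ℝ) / 4| ≤ 1 / 4 := by rw [abs_le]; constructor <;> norm_num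
    have h4' : |(-1 : ℝ) / 4| ≤ 1 / 4 := by rw [abs_le]; constructor <;> norm_num
    have cdp : ((Nat.add (Nat.mul 2 bp) (Nat.add (Nat.mul 12 b3) (Nat.mul 4 za)) : ℕ) : ℝ) =
        4 * (1 / 2 * bp + 3 * b3 + 1 * za) := by
      simp only [Nat.add_eq, Nat.mul_eq, Nat.cast_add, Nat.cast_mul, Nat.cast_ofNat]
      ring
    have cdq : ((Nat.add (Nat.mul 2 bp) (Nat.add b3 (Nat.mul 4 ze)) : ℕ) : ℝ) =
        4 * (1 / 2 * bp + 1 / 4 * b3 + 1 * ze) := by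
      simp only [Nat.add_eq, Nat.mul_eq, Nat.cast_add, Nat.cast_mul, Nat.cast_ofNat]
      ring
    have four : ∀ w r : ℝ, |w| ≤ r → |4 * w| ≤ 4 * r := by
      intro w r hw
      rw [abs_mul, abs_of_pos (by norm_num : (0 : ℝ) < 4)]
      linarith
    refine lf8_sound H hx0 hx1 hy0 hy1 B1 B2 G1 G2 ha0 ha1 hd0 hd1 ?_ ?_ ?_ ?_ ?_ ?_ ?_ ?_
      (nr_pos_right _ _ (by linarith)) (nr_pos_right _ _ (by linarith)) (nr_pos_right _ _ (by linarith))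
      (nr_pos_right _ _ (by linarith))
    · have := four _ _ (lin3 Bab Gab l1 (1 / 2) 3 1 (1 / 2) 3 1 ho h3 h1)
      rw [cdp]
      refine le_trans (le_of_eq ?_) this
      congr 1; ring
    · have := four _ _ (lin3 Bab Gab l1 (1 / 2) 3 (-1) (1 / 2) 3 1 ho h3 h1')
      rw [cdp]
      refine le_trans (le_of_eq ?_) this
      congr 1; ring
    · have := four _ _ (lin3 Bab Gab l1 (-1 / 2) 3 1 (1 / 2) 3 1 ho' h3 h1)
      rw [cdp]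
      refine le_trans (le_of_eq ?_) this
      congr 1; ring
    · have := four _ _ (lin3 Bab Gab l1 (-1 / 2) 3 (-1) (1 / 2) 3 1 ho' h3 h1')
      rw [cdp]
      refine le_trans (le_of_eq ?_) this
      congr 1; ring
    · have := four _ _ (lin3 Bab Gab l2 (-1 / 2) (1 / 4) 1 (1 / 2) (1 / 4) 1 ho' h4 h1)
      rw [cdq]
      refine le_trans (le_of_eq ?_) this
      congr 1; ring
    · have := four _ _ (lin3 Bab Gab l2 (-1 / 2) (1 / 4) (-1) (1 / 2) (1 / 4) 1 ho' h4 h1')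
      rw [cdq]
      refine le_trans (le_of_eq ?_) this
      congr 1; ring
    · have := four _ _ (lin3 Bab Gab l2 (-1 / 2) (-1 / 4) 1 (1 / 2) (1 / 4) 1 ho' h4' h1)
      rw [cdq]
      refine le_trans (le_of_eq ?_) this
      congr 1; ring
    · have := four _ _ (lin3 Bab Gab l2 (-1 / 2) (-1 / 4) (-1) (1 / 2) (1 / 4) 1 ho' h4' h1')
      rw [cdq]
      refine le_trans (le_of_eq ?_) this
      congr 1; ring

end Pool.Agent.Helper48.TBN
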